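import Pool.Agent.Helper14.S8.Rules

/-!
Sharpness, Siegel type (MP_b8862a_ag): the commutant of the symplectic Lie algebra on the symmetric square and on the primitive
part of the exterior square.
-/

set_option linter.unusedSectionVars false
set_option linter.unusedVariables false

open Matrix
open scoped Kronecker

namespace S8

open MH MH.PGN

variable {κ : Type} [Fintype κ] [DecidableEq κ]

/-- `A` commutes with the derived action of `Y` -/
def Cm (A : Matrix (V κ × V κ) (V κ × V κ) ℚ) (Y : Matrix (V κ) (V κ) ℚ) : Prop := A * D Y = D Y * A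

variable {A : Matrix (V κ × V κ) (V κ × V κ) ℚ}

theorem Cm.add {X Y : Matrix (V κ) (V κ) ℚ} (hX : Cm A X) (hY : Cm A Y) : Cm A (X + Y) := by
  unfold Cm at *
  rw [D_add, mul_add, add_mul, hX, hY]

theorem Cm.smul (c : ℚ) {X : Matrix (V κ) (V κ) ℚ} (hX : Cm A X) : Cm A (c • X) := by
  unfold Cm at *
  rw [D_smul, mul_smul_comm, smul_mul_assoc, hX]

theorem Cm.brk {X Y : Matrix (V κ) (V κ) ℚ} (hX : Cm A X) (hY : Cm A Y) : Cm A (X * Y - Y * X) := by
  unfold Cm at *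
  rw [D_brk, mul_sub, sub_mul]
  congr 1
  · rw [← mul_assoc, hX, mul_assoc, hY, mul_assoc]
  · rw [← mul_assoc, hY, mul_assoc, hX, mul_assoc]

/-- the Levi part -/
theorem Cm.levi (hU : ∀ S : Matrix κ κ ℚ, Sᵀ = S → Cm A (nU S)) (hL : ∀ S : Matrix κ κ ℚ, Sᵀ = S → Cm A (nL S))
    (B : Matrix κ κ ℚ) : Cm A (Matrix.fromBlocks B 0 0 (-Bᵀ)) := by
  -- products of symmetric matrices
  have hST : ∀ S T : Matrix κ κ ℚ, Sᵀ = S → Tᵀ = T → Cm A (Matrix.fromBlocks (S * T) 0 0 (-(S * T)ᵀ)) := by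
    intro S T hS hT
    have h1 := (hU S hS).brk (hL T hT)
    have h2 : nU S * nL T - nL T * nU S = Matrix.fromBlocks (S * T) 0 0 (-(S * T)ᵀ) := by
      rw [nU, nL, Matrix.fromBlocks_multiply, Matrix.fromBlocks_multiply, sub_eq_add_neg, Matrix.fromBlocks_neg,
        Matrix.fromBlocks_add, Matrix.transpose_mul, hS, hT]
      congr 1 <;> simp
    rwa [h2] at h1
  induction B using Matrix.induction_on' with
  | h_zero =>
    have h1 : Matrix.fromBlocks (0 : Matrix κ κ ℚ) 0 0 (-(0 : Matrix κ κ ℚ)ᵀ) = (0 : ℚ) • nU (1 : Matrix κ κ ℚ) := by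
      rw [zero_smul, Matrix.transpose_zero, neg_zero, Matrix.fromBlocks_zero]
    rw [h1]
    exact (hU 1 Matrix.transpose_one).smul 0
  | h_add p q hp hq =>
    have h1 : Matrix.fromBlocks (p + q) 0 0 (-(p + q)ᵀ) = Matrix.fromBlocks p 0 0 (-pᵀ) + Matrix.fromBlocks q 0 0 (-qᵀ) := by
      rw [Matrix.fromBlocks_add, Matrix.transpose_add, neg_add]
      simp
    rw [h1]
    exact hp.add hq
  | h_std_basis i j x =>
    by_cases hij : i = j
    · subst hij
      have h1 : Matrix.single i i x = Matrix.single i i x * Matrix.single i i (1 : ℚ) := by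
        rw [Matrix.single_mul_single_same, mul_one]
      rw [h1]
      exact hST _ _ (Matrix.transpose_single _ _ _) (Matrix.transpose_single _ _ _)
    · have h1 : Matrix.single i j x = Matrix.single i i (1 : ℚ) * (Matrix.single i j x + Matrix.single j i x) := by
        rw [mul_add, Matrix.single_mul_single_same, one_mul, Matrix.single_mul_single_of_ne _ _ _ _ hij, add_zero]
      rw [h1]
      refine hST _ _ (Matrix.transpose_single _ _ _) ?_
      rw [Matrix.transpose_add, Matrix.transpose_single, Matrix.transpose_single, add_comm]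

/-- the rank one nilpotent element of a vector -/
def Nn (u : V κ → ℚ) : Matrix (V κ) (V κ) ℚ := Matrix.vecMulVec u (u ᵥ* psi κ ℚ)

theorem Cm.nn (hU : ∀ S : Matrix κ κ ℚ, Sᵀ = S → Cm A (nU S)) (hL : ∀ S : Matrix κ κ ℚ, Sᵀ = S → Cm A (nL S))
    (u : V κ → ℚ) : Cm A (Nn u) := by
  obtain ⟨a, ha⟩ : ∃ a : κ → ℚ, a = fun i => u (Sum.inl i) := ⟨_, rfl⟩
  obtain ⟨b, hb⟩ : ∃ b : κ → ℚ, b = fun i => u (Sum.inr i) := ⟨_, rfl⟩
  have hl : ∀ j : κ, (u ᵥ* psi κ ℚ) (Sum.inl j) = -b j := by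
    intro j
    rw [Matrix.vecMul, dotProduct, Fintype.sum_sum_type, psi]
    simp only [Matrix.fromBlocks_apply₁₁, Matrix.fromBlocks_apply₂₁, Matrix.zero_apply, mul_zero, Finset.sum_const_zero,
      zero_add, Matrix.neg_apply, mul_neg, Finset.sum_neg_distrib]
    rw [Finset.sum_eq_single j]
    · rw [Matrix.one_apply_eq, mul_one, hb]
    · intro k _ hk
      rw [Matrix.one_apply_ne hk, mul_zero]
    · intro h
      exact absurd (Finset.mem_univ _) h
  have hr : ∀ j : κ, (u ᵥ* psi κ ℚ) (Sum.inr j) = a j := by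
    intro j
    rw [Matrix.vecMul, dotProduct, Fintype.sum_sum_type, psi]
    simp only [Matrix.fromBlocks_apply₁₂, Matrix.fromBlocks_apply₂₂, Matrix.zero_apply, mul_zero, Finset.sum_const_zero,
      add_zero]
    rw [Finset.sum_eq_single j]
    · rw [Matrix.one_apply_eq, mul_one, ha]
    · intro k _ hk
      rw [Matrix.one_apply_ne hk, mul_zero]
    · intro h
      exact absurd (Finset.mem_univ _) h
  have h1 : Nn u = Matrix.fromBlocks (-(Matrix.vecMulVec a b)) 0 0 (-(-(Matrix.vecMulVec a b))ᵀ) +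
      (nU (Matrix.vecMulVec a a) + (-1 : ℚ) • nL (Matrix.vecMulVec b b)) := by
    ext i j
    rcases i with i | i <;> rcases j with j | j
    · rw [Nn, Matrix.vecMulVec_apply, hl]
      simp [nU, nL, ha, hb, Matrix.vecMulVec_apply]
    · rw [Nn, Matrix.vecMulVec_apply, hr]
      simp [nU, nL, ha, hb, Matrix.vecMulVec_apply]
    · rw [Nn, Matrix.vecMulVec_apply, hl]
      simp [nU, nL, ha, hb, Matrix.vecMulVec_apply]
    · rw [Nn, Matrix.vecMulVec_apply, hr]
      simp [nU, nL, ha, hb, Matrix.vecMulVec_apply, mul_comm]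
  rw [h1]
  exact (Cm.levi hU hL _).add ((hU _ (Matrix.transpose_vecMulVec _ _)).add ((hL _ (Matrix.transpose_vecMulVec _ _)).smul _))

/-- the vector of a matrix -/
def vc (X : Matrix (V κ) (V κ) ℚ) : V κ × V κ → ℚ := fun p => X p.1 p.2

theorem vc_add (X Y : Matrix (V κ) (V κ) ℚ) : vc (X + Y) = vc X + vc Y := rfl

theorem vc_smul (r : ℚ) (X : Matrix (V κ) (V κ) ℚ) : vc (r • X) = r • vc X := rfl

theorem D_vc (Y X : Matrix (V κ) (V κ) ℚ) : D Y *ᵥ vc X = vc (Y * X + X * Yᵀ) := by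
  funext p
  obtain ⟨i, j⟩ := p
  rw [D, Matrix.add_mulVec, Pi.add_apply]
  have e1 : ((Y ⊗ₖ (1 : Matrix (V κ) (V κ) ℚ)) *ᵥ vc X) (i, j) = (Y * X) i j := by
    rw [Matrix.mulVec, dotProduct, Fintype.sum_prod_type, Matrix.mul_apply]
    refine Finset.sum_congr rfl fun k _ => ?_
    rw [Finset.sum_eq_single j]
    · rw [Matrix.kroneckerMap_apply, Matrix.one_apply_eq, mul_one, vc]
    · intro l _ hl
      rw [Matrix.kroneckerMap_apply, Matrix.one_apply_ne (Ne.symm hl), mul_zero, zero_mul]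
    · intro h
      exact absurd (Finset.mem_univ _) h
  have e2 : (((1 : Matrix (V κ) (V κ) ℚ) ⊗ₖ Y) *ᵥ vc X) (i, j) = (X * Yᵀ) i j := by
    rw [Matrix.mulVec, dotProduct, Fintype.sum_prod_type, Matrix.mul_apply, Finset.sum_eq_single i]
    · refine Finset.sum_congr rfl fun k _ => ?_
      rw [Matrix.kroneckerMap_apply, Matrix.one_apply_eq, one_mul, vc, Matrix.transpose_apply, mul_comm]
    · intro l _ hl
      refine Finset.sum_eq_zero fun k _ => ?_
      rw [Matrix.kroneckerMap_apply, Matrix.one_apply_ne (Ne.symm hl), zero_mul, zero_mul]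
    · intro h
      exact absurd (Finset.mem_univ _) h
  rw [e1, e2]
  rfl

/-- two commuting nilpotent elements -/
theorem dd {u v : V κ → ℚ} (huv : (u ᵥ* psi κ ℚ) ⬝ᵥ v = 0) (X : Matrix (V κ) (V κ) ℚ) :
    D (Nn u) *ᵥ (D (Nn v) *ᵥ vc X) = vc (((u ᵥ* psi κ ℚ) ⬝ᵥ (X *ᵥ (v ᵥ* psi κ ℚ))) • Matrix.vecMulVec u v +
      ((v ᵥ* psi κ ℚ) ⬝ᵥ (X *ᵥ (u ᵥ* psi κ ℚ))) • Matrix.vecMulVec v u) := by
  rw [D_vc, D_vc]
  congr 1
  have h0 : Nn u * Nn v = 0 := by
    rw [Nn, Nn, Matrix.vecMulVec_mul_vecMulVec, huv]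
    simp
  have h1 : Nn u * (X * (Nn v)ᵀ) = ((u ᵥ* psi κ ℚ) ⬝ᵥ (X *ᵥ (v ᵥ* psi κ ℚ))) • Matrix.vecMulVec u v := by
    rw [Nn, Nn, Matrix.transpose_vecMulVec, Matrix.mul_vecMulVec, Matrix.vecMulVec_mul_vecMulVec]
    ext i j
    simp only [Matrix.vecMulVec_apply, Matrix.smul_apply, Pi.smul_apply, smul_eq_mul, MulOpposite.smul_eq_mul_unop,
      MulOpposite.unop_op]
    ring
  have h2 : Nn v * X * (Nn u)ᵀ = ((v ᵥ* psi κ ℚ) ⬝ᵥ (X *ᵥ (u ᵥ* psi κ ℚ))) • Matrix.vecMulVec v u := by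
    rw [mul_assoc, Nn, Nn, Matrix.transpose_vecMulVec, Matrix.mul_vecMulVec, Matrix.vecMulVec_mul_vecMulVec]
    ext i j
    simp only [Matrix.vecMulVec_apply, Matrix.smul_apply, Pi.smul_apply, smul_eq_mul, MulOpposite.smul_eq_mul_unop,
      MulOpposite.unop_op]
    ring
  have h3 : X * (Nn v)ᵀ * (Nn u)ᵀ = 0 := by
    rw [mul_assoc, ← Matrix.transpose_mul, h0, Matrix.transpose_zero, mul_zero]
  have h4 : Nn u * (Nn v * X) = 0 := by
    rw [← mul_assoc, h0, zero_mul]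
  rw [mul_add, add_mul, h1, h2, h3, h4]
  abel

theorem T_ee (b : Bool) : T (V κ) ℚ * ee κ ℚ b = sgn ℚ b • ee κ ℚ b := by
  cases b
  · rw [ee_false, sgn, if_neg (by decide), mul_sub, Matrix.mul_smul, mul_sub, Matrix.mul_one, T_mul_T, T_E, neg_one_smul,
      sub_neg_eq_add, neg_sub, ← neg_sub (1 : Matrix (V κ × V κ) (V κ × V κ) ℚ), smul_neg]
    abel
  · rw [ee_true, sgn, if_pos rfl, Matrix.mul_smul, mul_add, Matrix.mul_one, T_mul_T, one_smul, add_comm]

/-- the symmetry of the vectors of the summand -/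
theorem ee_symm (b : Bool) {y : V κ × V κ → ℚ} (hy : ee κ ℚ b *ᵥ y = y) :
    ∃ Y : Matrix (V κ) (V κ) ℚ, y = vc Y ∧ Yᵀ = sgn ℚ b • Y := by
  refine ⟨Matrix.of fun i j => y (i, j), rfl, ?_⟩
  have h1 : T (V κ) ℚ *ᵥ y = sgn ℚ b • y := by
    conv_lhs => rw [← hy]
    rw [Matrix.mulVec_mulVec, T_ee, Matrix.smul_mulVec, hy]
  ext i j
  rw [Matrix.transpose_apply, Matrix.of_apply, Matrix.smul_apply, Matrix.of_apply]
  have h2 := congrFun h1 (i, j)
  have h3 : (T (V κ) ℚ *ᵥ y) (i, j) = y (j, i) := by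
    rw [Matrix.mulVec, dotProduct, Finset.sum_eq_single (j, i)]
    · rw [T, Prod.swap_prod_mk, if_pos rfl, one_mul]
    · intro q _ hq
      rw [T, if_neg, zero_mul]
      intro h4
      apply hq
      rw [← Prod.swap_swap q, ← h4]
      rfl
    · intro h
      exact absurd (Finset.mem_univ _) h
  rw [h3] at h2
  exact h2

/-- the vector of the pair `u`, `v` -/
def Pv (b : Bool) (u v : V κ → ℚ) : Matrix (V κ) (V κ) ℚ := Matrix.vecMulVec u v + sgn ℚ b • Matrix.vecMulVec v u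

theorem beta_symm {b : Bool} {X : Matrix (V κ) (V κ) ℚ} (hX : Xᵀ = sgn ℚ b • X) (p q : V κ → ℚ) :
    q ⬝ᵥ (X *ᵥ p) = sgn ℚ b * (p ⬝ᵥ (X *ᵥ q)) := by
  rw [Matrix.dotProduct_mulVec, dotProduct_comm, ← Matrix.mulVec_transpose, hX, Matrix.smul_mulVec, dotProduct_smul,
    smul_eq_mul]

/-- the vectors of isotropic pairs are eigenvectors -/
theorem eig (b : Bool) (hA : ee κ ℚ b * A = A) (hN : ∀ u, Cm A (Nn u)) {u v : V κ → ℚ}
    (huv : (u ᵥ* psi κ ℚ) ⬝ᵥ v = 0) (hne : (u ⬝ᵥ u) * (v ⬝ᵥ v) + sgn ℚ b * (u ⬝ᵥ v) ^ 2 ≠ 0) :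
    ∃ c : ℚ, A *ᵥ vc (Pv b u v) = c • vc (Pv b u v) := by
  obtain ⟨p, hp⟩ : ∃ p, p = u ᵥ* psi κ ℚ := ⟨_, rfl⟩
  obtain ⟨q, hq⟩ : ∃ q, q = v ᵥ* psi κ ℚ := ⟨_, rfl⟩
  have hs2 : sgn ℚ b * sgn ℚ b = 1 := by
    cases b <;> simp [sgn]
  have hdot : ∀ x y : V κ → ℚ, (x ᵥ* psi κ ℚ) ⬝ᵥ (y ᵥ* psi κ ℚ) = x ⬝ᵥ y := by
    intro x y
    rw [← Matrix.mulVec_transpose (psi κ ℚ) y, Matrix.dotProduct_mulVec, Matrix.vecMul_vecMul, psi_tr, mul_neg, psi_sq,
      neg_neg, Matrix.vecMul_one]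
  -- the image of a vector of the right symmetry
  have himg : ∀ X : Matrix (V κ) (V κ) ℚ, Xᵀ = sgn ℚ b • X →
      D (Nn u) *ᵥ (D (Nn v) *ᵥ vc X) = (p ⬝ᵥ (X *ᵥ q)) • vc (Pv b u v) := by
    intro X hX
    rw [dd huv, ← hp, ← hq, beta_symm hX p q, ← vc_smul]
    congr 1
    rw [Pv, smul_add, smul_smul, mul_comm (sgn ℚ b)]
  obtain ⟨X0, hX0⟩ : ∃ X0, X0 = Matrix.vecMulVec p q + sgn ℚ b • Matrix.vecMulVec q p := ⟨_, rfl⟩
  have hX0s : X0ᵀ = sgn ℚ b • X0 := by
    rw [hX0, Matrix.transpose_add, Matrix.transpose_smul, Matrix.transpose_vecMulVec, Matrix.transpose_vecMulVec, smul_add,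
      smul_smul, hs2, one_smul, add_comm]
  have hbeta : p ⬝ᵥ (X0 *ᵥ q) = (u ⬝ᵥ u) * (v ⬝ᵥ v) + sgn ℚ b * (u ⬝ᵥ v) ^ 2 := by
    rw [hX0, Matrix.add_mulVec, Matrix.smul_mulVec, Matrix.vecMulVec_mulVec, Matrix.vecMulVec_mulVec, dotProduct_add,
      dotProduct_smul, dotProduct_smul, dotProduct_smul, hp, hq, hdot, hdot, hdot]
    simp only [MulOpposite.smul_eq_mul_unop, MulOpposite.unop_op, smul_eq_mul]
    ring
  obtain ⟨Y, hY, hYs⟩ := ee_symm b (y := A *ᵥ vc X0) (by rw [Matrix.mulVec_mulVec, hA])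
  have h1 := himg X0 hX0s
  have h2 := himg Y hYs
  rw [← hY] at h2
  have h3 : D (Nn u) *ᵥ (D (Nn v) *ᵥ (A *ᵥ vc X0)) = A *ᵥ (D (Nn u) *ᵥ (D (Nn v) *ᵥ vc X0)) := by
    have e1 : ∀ x, D (Nn v) *ᵥ (A *ᵥ x) = A *ᵥ (D (Nn v) *ᵥ x) := by
      intro x
      rw [Matrix.mulVec_mulVec, Matrix.mulVec_mulVec, hN v]
    have e2 : ∀ x, D (Nn u) *ᵥ (A *ᵥ x) = A *ᵥ (D (Nn u) *ᵥ x) := by
      intro x
      rw [Matrix.mulVec_mulVec, Matrix.mulVec_mulVec, hN u]
    rw [e1, e2]
  rw [h1, h2, Matrix.mulVec_smul, hbeta] at h3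
  refine ⟨((u ⬝ᵥ u) * (v ⬝ᵥ v) + sgn ℚ b * (u ⬝ᵥ v) ^ 2)⁻¹ * (p ⬝ᵥ (Y *ᵥ q)), ?_⟩
  rw [mul_smul, h3, smul_smul, inv_mul_cancel₀ hne, one_smul]

/-- the basis vectors -/
def d1 (a : V κ) : V κ → ℚ := Pi.single a 1

/-- the basis of the tensor square -/
def dl (a b : V κ) : Matrix (V κ) (V κ) ℚ := Matrix.single a b 1

theorem dl_eq (a b : V κ) : dl a b = Matrix.vecMulVec (d1 a) (d1 b) := Matrix.single_eq_single_vecMulVec_single a b

theorem d1_dot (a b : V κ) : d1 a ⬝ᵥ d1 b = if a = b then 1 else 0 := by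
  rw [d1, d1, single_one_dotProduct, Pi.single_apply]

theorem d1_psi (a b : V κ) : (d1 a ᵥ* psi κ ℚ) ⬝ᵥ d1 b = psi κ ℚ a b := by
  rw [d1, d1, Matrix.single_one_vecMul, dotProduct_single_one]
  rfl

theorem vc_apply (X : Matrix (V κ) (V κ) ℚ) (a b : V κ) : vc X (a, b) = X a b := rfl

theorem dl_apply (a b i j : V κ) : dl a b i j = if a = i ∧ b = j then 1 else 0 := by
  rw [dl, Matrix.single_apply]

/-- the values on the columns determine the matrix -/
theorem ext_col {c : ℚ} (b : Bool) (h : ∀ i j : V κ, A *ᵥ vc (dl i j) = c • (ee κ ℚ b *ᵥ vc (dl i j))) :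
    A = c • ee κ ℚ b := by
  have hcol : ∀ (M : Matrix (V κ × V κ) (V κ × V κ) ℚ) (p q : V κ × V κ), (M *ᵥ vc (dl q.1 q.2)) p = M p q := by
    intro M p q
    rw [Matrix.mulVec, dotProduct, Finset.sum_eq_single q]
    · rw [vc, dl_apply, if_pos ⟨rfl, rfl⟩, mul_one]
    · intro k _ hk
      rw [vc, dl_apply, if_neg, mul_zero]
      rintro ⟨h1, h2⟩
      exact hk (Prod.ext h1.symm h2.symm)
    · intro h
      exact absurd (Finset.mem_univ _) h
  ext p q
  rw [← hcol A, h, Matrix.smul_apply, Pi.smul_apply, hcol]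

/-- **The commutant on the symmetric square.** -/
theorem end_sym [Nonempty κ] (hA : ee κ ℚ true * A * ee κ ℚ true = A) (hN : ∀ u, Cm A (Nn u)) :
    ∃ c : ℚ, A = c • ee κ ℚ true := by
  have hA1 : ee κ ℚ true * A = A := by
    rw [← hA, ← mul_assoc, ← mul_assoc, ee_idem]
  have hA2 : A * ee κ ℚ true = A := by
    rw [← hA, mul_assoc, ee_idem]
  have hsg : sgn ℚ true = 1 := rfl
  -- squares
  have hsq : ∀ u : V κ → ℚ, u ⬝ᵥ u ≠ 0 → ∃ c : ℚ, A *ᵥ vc (Matrix.vecMulVec u u) = c • vc (Matrix.vecMulVec u u) := by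
    intro u hu
    have h0 : (u ᵥ* psi κ ℚ) ⬝ᵥ u = 0 := by
      have h1 : (u ᵥ* psi κ ℚ) ⬝ᵥ u = -((u ᵥ* psi κ ℚ) ⬝ᵥ u) := by
        conv_lhs => rw [dotProduct_comm, ← Matrix.mulVec_transpose, psi_tr, Matrix.neg_mulVec, dotProduct_neg,
          Matrix.dotProduct_mulVec]
      linarith
    obtain ⟨c, hc⟩ := eig true hA1 hN h0 (by
      rw [hsg, one_mul, ← sq, ← two_mul]
      exact mul_ne_zero two_ne_zero (pow_ne_zero _ hu))
    refine ⟨c, ?_⟩
    have h2 : Pv true u u = (2 : ℚ) • Matrix.vecMulVec u u := by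
      rw [Pv, hsg, one_smul, two_smul]
    rw [h2, vc_smul, Matrix.mulVec_smul, smul_comm c] at hc
    exact smul_right_injective _ two_ne_zero hc
  have hdd : ∀ a : V κ, ∃ c : ℚ, A *ᵥ vc (dl a a) = c • vc (dl a a) := by
    intro a
    rw [dl_eq]
    exact hsq _ (by rw [d1_dot, if_pos rfl]; exact one_ne_zero)
  choose C hC using hdd
  -- two different indices
  have hab : ∀ a b : V κ, a ≠ b → C a = C b ∧ A *ᵥ vc (dl a b + dl b a) = C a • vc (dl a b + dl b a) := by
    intro a b hab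
    have e1 : Matrix.vecMulVec (d1 a + d1 b) (d1 a + d1 b) = dl a a + dl b b + (dl a b + dl b a) := by
      rw [Matrix.add_vecMulVec, Matrix.vecMulVec_add, Matrix.vecMulVec_add, dl_eq, dl_eq, dl_eq, dl_eq]
      abel
    have e2 : Matrix.vecMulVec (d1 a - d1 b) (d1 a - d1 b) = dl a a + dl b b - (dl a b + dl b a) := by
      rw [sub_eq_add_neg, Matrix.add_vecMulVec, Matrix.vecMulVec_add, Matrix.vecMulVec_add, Matrix.neg_vecMulVec,
        Matrix.vecMulVec_neg, Matrix.neg_vecMulVec, Matrix.vecMulVec_neg, neg_neg, dl_eq, dl_eq, dl_eq, dl_eq]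
      abel
    have n1 : (d1 a + d1 b) ⬝ᵥ (d1 a + d1 b) = 2 := by
      rw [add_dotProduct, dotProduct_add, dotProduct_add, d1_dot, d1_dot, d1_dot, d1_dot, if_pos rfl, if_pos rfl,
        if_neg hab, if_neg (Ne.symm hab)]
      norm_num
    have n2 : (d1 a - d1 b) ⬝ᵥ (d1 a - d1 b) = 2 := by
      rw [sub_dotProduct, dotProduct_sub, dotProduct_sub, d1_dot, d1_dot, d1_dot, d1_dot, if_pos rfl, if_pos rfl,
        if_neg hab, if_neg (Ne.symm hab)]
      norm_num
    obtain ⟨c1, h1⟩ := hsq (d1 a + d1 b) (by rw [n1]; norm_num)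
    obtain ⟨c2, h2⟩ := hsq (d1 a - d1 b) (by rw [n2]; norm_num)
    rw [e1] at h1
    rw [e2] at h2
    have v1 : vc (dl a a + dl b b + (dl a b + dl b a)) = vc (dl a a) + vc (dl b b) + vc (dl a b + dl b a) := rfl
    have v2 : vc (dl a a + dl b b - (dl a b + dl b a)) = vc (dl a a) + vc (dl b b) - vc (dl a b + dl b a) := rfl
    rw [v1, Matrix.mulVec_add, Matrix.mulVec_add, hC, hC] at h1
    rw [v2, Matrix.mulVec_sub, Matrix.mulVec_add, hC, hC] at h2
    obtain ⟨Z, hZ⟩ : ∃ Z, Z = A *ᵥ vc (dl a b + dl b a) := ⟨_, rfl⟩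
    rw [← hZ] at h1 h2 ⊢
    have p1 := congrFun h1 (a, b)
    have p2 := congrFun h2 (a, b)
    have q1 := congrFun h1 (a, a)
    have q2 := congrFun h2 (a, a)
    have r1 := congrFun h1 (b, b)
    have r2 := congrFun h2 (b, b)
    simp only [Pi.add_apply, Pi.sub_apply, Pi.smul_apply, vc_apply, Matrix.add_apply, dl_apply, smul_eq_mul, hab,
      Ne.symm hab, and_self, and_false, false_and, if_true, if_false] at p1 p2 q1 q2 r1 r2
    have k1 : c1 = c2 := by linarith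
    have k2 : C a = c1 := by linarith
    have k3 : C b = c1 := by linarith
    refine ⟨by rw [k2, k3], ?_⟩
    have h3 : (2 : ℚ) • Z = (2 : ℚ) • (C a • vc (dl a b + dl b a)) := by
      have h4 : (2 : ℚ) • Z = (C a • vc (dl a a) + C b • vc (dl b b) + Z) - (C a • vc (dl a a) + C b • vc (dl b b) - Z) := by
        rw [two_smul]
        abel
      rw [h4, h1, h2, ← k1, ← k2, two_smul]
      simp only [smul_add, smul_sub]
      abel
    exact smul_right_injective _ two_ne_zero h3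
  obtain ⟨a0⟩ : Nonempty (V κ) := ⟨Sum.inl (Classical.arbitrary κ)⟩
  have hCc : ∀ a, C a = C a0 := by
    intro a
    by_cases h : a = a0
    · rw [h]
    · exact (hab a a0 h).1
  have hs : ∀ a b : V κ, A *ᵥ vc (dl a b + dl b a) = C a0 • vc (dl a b + dl b a) := by
    intro a b
    by_cases h : a = b
    · subst h
      rw [vc_add, Matrix.mulVec_add, hC, smul_add, hCc]
    · rw [(hab a b h).2, hCc]
  refine ⟨C a0, ext_col true fun a b => ?_⟩
  have h1 : ee κ ℚ true *ᵥ vc (dl a b) = (1 / 2 : ℚ) • vc (dl a b + dl b a) := by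
    rw [ee_true, Matrix.smul_mulVec, Matrix.add_mulVec, Matrix.one_mulVec]
    congr 1
    funext p
    obtain ⟨i, j⟩ := p
    rw [Pi.add_apply, vc_apply, vc_apply, Matrix.add_apply]
    congr 1
    rw [Matrix.mulVec, dotProduct, Finset.sum_eq_single (j, i)]
    · rw [T, Prod.swap_prod_mk, if_pos rfl, one_mul, vc_apply, dl_apply, dl_apply]
      congr 1
      exact propext ⟨fun h => ⟨h.2, h.1⟩, fun h => ⟨h.2, h.1⟩⟩
    · intro q _ hq
      rw [T, if_neg, zero_mul]
      intro h4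
      apply hq
      rw [← Prod.swap_swap q, ← h4]
      rfl
    · intro h
      exact absurd (Finset.mem_univ _) h
  rw [h1, smul_comm, ← hs, ← Matrix.mulVec_smul, ← h1, Matrix.mulVec_mulVec, hA2]

/-- the vector of an alternating pair -/
def tt (a b : V κ) : Matrix (V κ) (V κ) ℚ := dl a b - dl b a

theorem tt_apply (a b i j : V κ) : tt a b i j = (if a = i ∧ b = j then 1 else 0) - (if b = i ∧ a = j then 1 else 0) := by
  rw [tt, Matrix.sub_apply, dl_apply, dl_apply]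

theorem Pv_false (u v : V κ → ℚ) : Pv false u v = Matrix.vecMulVec u v - Matrix.vecMulVec v u := by
  rw [Pv, sgn, if_neg (by decide), neg_one_smul, sub_eq_add_neg]

/-- the dual index -/
def du : V κ → V κ
  | Sum.inl i => Sum.inr i
  | Sum.inr i => Sum.inl i

theorem du_du (a : V κ) : du (du a) = a := by
  rcases a with a | a <;> rfl

theorem du_ne (a : V κ) : du a ≠ a := by
  rcases a with a | a <;> simp [du]

theorem psi_zero {a b : V κ} (h : b ≠ du a) : psi κ ℚ a b = 0 := by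
  rcases a with a | a <;> rcases b with b | b
  · rfl
  · have h1 : a ≠ b := by
      rintro rfl
      exact h rfl
    rw [psi, Matrix.fromBlocks_apply₁₂, Matrix.one_apply_ne h1]
  · have h1 : a ≠ b := by
      rintro rfl
      exact h rfl
    rw [psi, Matrix.fromBlocks_apply₂₁, Matrix.neg_apply, Matrix.one_apply_ne h1, neg_zero]
  · rfl

theorem psi_inl (i : κ) : psi κ ℚ (Sum.inl i) (Sum.inr i) = 1 := by
  rw [psi, Matrix.fromBlocks_apply₁₂, Matrix.one_apply_eq]

/-- **The commutant on the primitive part of the exterior square.** -/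
theorem end_alt (hr : 2 ≤ Fintype.card κ) (hA : ee κ ℚ false * A * ee κ ℚ false = A) (hN : ∀ u, Cm A (Nn u)) :
    ∃ c : ℚ, A = c • ee κ ℚ false := by
  have hne : Nonempty κ := Fintype.card_pos_iff.1 (by omega)
  have hA1 : ee κ ℚ false * A = A := by
    rw [← hA, ← mul_assoc, ← mul_assoc, ee_idem]
  have hA2 : A * ee κ ℚ false = A := by
    rw [← hA, mul_assoc, ee_idem]
  -- orthogonal isotropic pairs
  have hiso : ∀ u v : V κ → ℚ, (u ᵥ* psi κ ℚ) ⬝ᵥ v = 0 → u ⬝ᵥ v = 0 → u ⬝ᵥ u ≠ 0 → v ⬝ᵥ v ≠ 0 →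
      ∃ c : ℚ, A *ᵥ vc (Matrix.vecMulVec u v - Matrix.vecMulVec v u) = c • vc (Matrix.vecMulVec u v - Matrix.vecMulVec v u) := by
    intro u v h1 h2 h3 h4
    rw [← Pv_false]
    refine eig false hA1 hN h1 ?_
    rw [h2, zero_pow two_ne_zero, mul_zero, add_zero]
    exact mul_ne_zero h3 h4
  -- valid pairs
  have hvp : ∀ a b : V κ, b ≠ a → b ≠ du a → ∃ c : ℚ, A *ᵥ vc (tt a b) = c • vc (tt a b) := by
    intro a b h1 h2
    have h3 := hiso (d1 a) (d1 b) (by rw [d1_psi, psi_zero h2]) (by rw [d1_dot, if_neg (Ne.symm h1)])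
      (by rw [d1_dot, if_pos rfl]; exact one_ne_zero) (by rw [d1_dot, if_pos rfl]; exact one_ne_zero)
    rwa [← dl_eq, ← dl_eq] at h3
  have hch : ∀ a b : V κ, ∃ c : ℚ, b ≠ a → b ≠ du a → A *ᵥ vc (tt a b) = c • vc (tt a b) := by
    intro a b
    by_cases h : b ≠ a ∧ b ≠ du a
    · obtain ⟨c, hc⟩ := hvp a b h.1 h.2
      exact ⟨c, fun _ _ => hc⟩
    · exact ⟨0, fun h1 h2 => absurd ⟨h1, h2⟩ h⟩
  choose C hC using hch
  -- symmetry
  have hsym : ∀ a b : V κ, b ≠ a → b ≠ du a → C b a = C a b := by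
    intro a b h1 h2
    have h2' : a ≠ du b := by
      intro h
      rw [h, du_du] at h2
      exact h2 rfl
    have h3 := hC a b h1 h2
    have h4 := hC b a (Ne.symm h1) h2'
    have h5 : vc (tt b a) = -vc (tt a b) := by
      funext p
      simp only [Pi.neg_apply, vc, tt, Matrix.sub_apply, neg_sub]
    rw [h5, Matrix.mulVec_neg, h3, smul_neg, neg_inj] at h4
    have h6 := congrFun h4 (a, b)
    simp only [Pi.smul_apply, vc_apply, tt_apply, smul_eq_mul, h1, Ne.symm h1, and_self, and_false, if_true, if_false,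
      sub_zero, mul_one] at h6
    exact h6.symm
  -- a common index
  have hcom : ∀ a b c : V κ, b ≠ a → b ≠ du a → c ≠ a → c ≠ du a → C a b = C a c := by
    intro a b c h1 h2 h3 h4
    by_cases hbc : b = c
    · rw [hbc]
    have hP : Matrix.vecMulVec (d1 a) (d1 b + d1 c) - Matrix.vecMulVec (d1 b + d1 c) (d1 a) = tt a b + tt a c := by
      rw [Matrix.vecMulVec_add, Matrix.add_vecMulVec, tt, tt, dl_eq, dl_eq, dl_eq, dl_eq]
      abel
    obtain ⟨k, hk⟩ := hiso (d1 a) (d1 b + d1 c) (by rw [dotProduct_add, d1_psi, d1_psi, psi_zero h2, psi_zero h4, add_zero])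
      (by rw [dotProduct_add, d1_dot, d1_dot, if_neg (Ne.symm h1), if_neg (Ne.symm h3), add_zero])
      (by rw [d1_dot, if_pos rfl]; exact one_ne_zero)
      (by
        rw [add_dotProduct, dotProduct_add, dotProduct_add, d1_dot, d1_dot, d1_dot, d1_dot, if_pos rfl, if_pos rfl,
          if_neg hbc, if_neg (Ne.symm hbc)]
        norm_num)
    rw [hP, vc_add, Matrix.mulVec_add, hC a b h1 h2, hC a c h3 h4] at hk
    have p1 := congrFun hk (a, b)
    have p2 := congrFun hk (a, c)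
    simp only [Pi.add_apply, Pi.smul_apply, vc_apply, tt_apply, smul_eq_mul, h1, Ne.symm h1, h3, Ne.symm h3, hbc, Ne.symm hbc,
      and_self, and_false, false_and, true_and, if_true, if_false, sub_zero, mul_one, mul_zero, add_zero, zero_add] at p1 p2
    rw [p1, p2]
  -- two indices of the genus
  obtain ⟨i0, j0, hij0⟩ := Fintype.exists_pair_of_one_lt_card (show 1 < Fintype.card κ by omega)
  obtain ⟨c, hc⟩ : ∃ c, c = C (Sum.inl i0) (Sum.inl j0) := ⟨_, rfl⟩
  have hall : ∀ a b a' b' : V κ, b ≠ a → b ≠ du a → b' ≠ a' → b' ≠ du a' → C a b = C a' b' := by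
    intro a b a' b' h1 h2 h3 h4
    by_cases e1 : a' = a
    · subst e1
      exact hcom _ _ _ h1 h2 h3 h4
    by_cases e2 : a' = du a
    · subst e2
      have h5 : a ≠ du b := by
        intro h
        rw [h, du_du] at h2
        exact h2 rfl
      have h6 : du a ≠ b := fun h => h2 h.symm
      have h7 : du a ≠ du b := by
        intro h
        have := congrArg du h
        rw [du_du, du_du] at this
        exact h1 this.symm
      calc C a b = C b a := (hsym a b h1 h2).symm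
        _ = C b (du a) := hcom b a (du a) (Ne.symm h1) h5 h6 h7
        _ = C (du a) b := hsym (du a) b (Ne.symm h6) (by rw [du_du]; exact h1)
        _ = C (du a) b' := hcom (du a) b b' (Ne.symm h6) (by rw [du_du]; exact h1) h3 h4
    · have h5 : a ≠ du a' := by
        intro h
        rw [h, du_du] at e2
        exact e2 rfl
      calc C a b = C a a' := hcom a b a' h1 h2 e1 e2
        _ = C a' a := (hsym a a' e1 e2).symm
        _ = C a' b' := hcom a' a b' (Ne.symm e1) h5 h3 h4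
  have hCc : ∀ a b : V κ, b ≠ a → b ≠ du a → C a b = c := by
    intro a b h1 h2
    rw [hc]
    refine hall _ _ _ _ h1 h2 ?_ ?_
    · intro h
      exact hij0 (Sum.inl.inj h).symm
    · simp [du]
  -- the weight zero
  have hzero : ∀ i j : κ, A *ᵥ vc (tt (Sum.inl i) (Sum.inr i) - tt (Sum.inl j) (Sum.inr j)) =
      c • vc (tt (Sum.inl i) (Sum.inr i) - tt (Sum.inl j) (Sum.inr j)) := by
    intro i j
    by_cases hij : i = j
    · subst hij
      have h0 : vc (tt (Sum.inl i) (Sum.inr i) - tt (Sum.inl i) (Sum.inr i) : Matrix (V κ) (V κ) ℚ) = 0 := by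
        rw [sub_self]
        rfl
      rw [h0, Matrix.mulVec_zero, smul_zero]
    obtain ⟨ei, hei⟩ : ∃ ei : V κ, ei = Sum.inl i := ⟨_, rfl⟩
    obtain ⟨fi, hfi⟩ : ∃ fi : V κ, fi = Sum.inr i := ⟨_, rfl⟩
    obtain ⟨ej, hej⟩ : ∃ ej : V κ, ej = Sum.inl j := ⟨_, rfl⟩
    obtain ⟨fj, hfj⟩ : ∃ fj : V κ, fj = Sum.inr j := ⟨_, rfl⟩
    have n1 : ei ≠ ej := by rw [hei, hej]; exact fun h => hij (Sum.inl.inj h)
    have n2 : fi ≠ fj := by rw [hfi, hfj]; exact fun h => hij (Sum.inr.inj h)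
    have n3 : ei ≠ fi := by rw [hei, hfi]; simp
    have n4 : ei ≠ fj := by rw [hei, hfj]; simp
    have n5 : ej ≠ fi := by rw [hej, hfi]; simp
    have n6 : ej ≠ fj := by rw [hej, hfj]; simp
    have s1 : psi κ ℚ ei fi = 1 := by rw [hei, hfi, psi_inl]
    have s2 : psi κ ℚ ej fj = 1 := by rw [hej, hfj, psi_inl]
    have m1 : fj ≠ du ei := by rw [hei, hfj]; exact fun h => hij (Sum.inr.inj h).symm
    have m2 : fi ≠ du ej := by rw [hej, hfi]; exact fun h => hij (Sum.inr.inj h)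
    have s3 : psi κ ℚ ei fj = 0 := psi_zero m1
    have s4 : psi κ ℚ ej fi = 0 := psi_zero m2
    rw [← hei, ← hfi, ← hej, ← hfj]
    have w1 : A *ᵥ vc (tt ei fj) = c • vc (tt ei fj) := by
      rw [hC ei fj (Ne.symm n4) m1, hCc ei fj (Ne.symm n4) m1]
    have w2 : A *ᵥ vc (tt ej fi) = c • vc (tt ej fi) := by
      rw [hC ej fi (Ne.symm n5) m2, hCc ej fi (Ne.symm n5) m2]
    have e1 : Matrix.vecMulVec (d1 ei + d1 ej) (d1 fi - d1 fj) - Matrix.vecMulVec (d1 fi - d1 fj) (d1 ei + d1 ej) =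
        (tt ei fi - tt ej fj) - (tt ei fj - tt ej fi) := by
      rw [sub_eq_add_neg (d1 fi), Matrix.add_vecMulVec, Matrix.vecMulVec_add, Matrix.vecMulVec_add, Matrix.vecMulVec_neg,
        Matrix.vecMulVec_neg, Matrix.add_vecMulVec, Matrix.vecMulVec_add, Matrix.vecMulVec_add, Matrix.neg_vecMulVec,
        Matrix.neg_vecMulVec, tt, tt, tt, tt]
      simp only [dl_eq]
      abel
    obtain ⟨k1, h1⟩ := hiso (d1 ei + d1 ej) (d1 fi - d1 fj)
      (by
        rw [Matrix.add_vecMul, add_dotProduct, dotProduct_sub, dotProduct_sub, d1_psi, d1_psi, d1_psi, d1_psi, s1, s2, s3, s4]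
        norm_num)
      (by
        rw [add_dotProduct, dotProduct_sub, dotProduct_sub, d1_dot, d1_dot, d1_dot, d1_dot, if_neg n3, if_neg n4, if_neg n5,
          if_neg n6]
        norm_num)
      (by
        rw [add_dotProduct, dotProduct_add, dotProduct_add, d1_dot, d1_dot, d1_dot, d1_dot, if_pos rfl, if_pos rfl,
          if_neg n1, if_neg (Ne.symm n1)]
        norm_num)
      (by
        rw [sub_dotProduct, dotProduct_sub, dotProduct_sub, d1_dot, d1_dot, d1_dot, d1_dot, if_pos rfl, if_pos rfl,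
          if_neg n2, if_neg (Ne.symm n2)]
        norm_num)
    rw [e1] at h1
    have v1 : vc ((tt ei fi - tt ej fj) - (tt ei fj - tt ej fi)) = vc (tt ei fi - tt ej fj) - (vc (tt ei fj) - vc (tt ej fi)) :=
      rfl
    rw [v1, Matrix.mulVec_sub, Matrix.mulVec_sub, w1, w2] at h1
    obtain ⟨Z, hZ⟩ : ∃ Z, Z = A *ᵥ vc (tt ei fi - tt ej fj) := ⟨_, rfl⟩
    rw [← hZ] at h1 ⊢
    -- the second pair
    have e2 : Matrix.vecMulVec (d1 ei - d1 ej) (d1 fi + d1 fj) - Matrix.vecMulVec (d1 fi + d1 fj) (d1 ei - d1 ej) =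
        (tt ei fi - tt ej fj) + (tt ei fj - tt ej fi) := by
      rw [sub_eq_add_neg (d1 ei), Matrix.add_vecMulVec, Matrix.vecMulVec_add, Matrix.vecMulVec_add, Matrix.neg_vecMulVec,
        Matrix.neg_vecMulVec, Matrix.add_vecMulVec, Matrix.vecMulVec_add, Matrix.vecMulVec_add, Matrix.vecMulVec_neg,
        Matrix.vecMulVec_neg, tt, tt, tt, tt]
      simp only [dl_eq]
      abel
    obtain ⟨k2, h2⟩ := hiso (d1 ei - d1 ej) (d1 fi + d1 fj)
      (by
        rw [Matrix.sub_vecMul, sub_dotProduct, dotProduct_add, dotProduct_add, d1_psi, d1_psi, d1_psi, d1_psi, s1, s2, s3, s4]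
        norm_num)
      (by
        rw [sub_dotProduct, dotProduct_add, dotProduct_add, d1_dot, d1_dot, d1_dot, d1_dot, if_neg n3, if_neg n4, if_neg n5,
          if_neg n6]
        norm_num)
      (by
        rw [sub_dotProduct, dotProduct_sub, dotProduct_sub, d1_dot, d1_dot, d1_dot, d1_dot, if_pos rfl, if_pos rfl,
          if_neg n1, if_neg (Ne.symm n1)]
        norm_num)
      (by
        rw [add_dotProduct, dotProduct_add, dotProduct_add, d1_dot, d1_dot, d1_dot, d1_dot, if_pos rfl, if_pos rfl,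
          if_neg n2, if_neg (Ne.symm n2)]
        norm_num)
    rw [e2] at h2
    have v2 : vc ((tt ei fi - tt ej fj) + (tt ei fj - tt ej fi)) = vc (tt ei fi - tt ej fj) + (vc (tt ei fj) - vc (tt ej fi)) :=
      rfl
    rw [v2, Matrix.mulVec_add, Matrix.mulVec_sub, w1, w2, ← hZ] at h2
    have p1 := congrFun h1 (ei, fi)
    have p2 := congrFun h2 (ei, fi)
    have q1 := congrFun h1 (ei, fj)
    have q2 := congrFun h2 (ei, fj)
    simp only [Pi.add_apply, Pi.sub_apply, Pi.smul_apply, vc_apply, Matrix.sub_apply, tt_apply, smul_eq_mul, n1, Ne.symm n1,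
      n2, Ne.symm n2, n3, Ne.symm n3, n4, Ne.symm n4, n5, Ne.symm n5, n6, Ne.symm n6, and_self, and_false, false_and,
      if_true, if_false] at p1 p2 q1 q2
    have k1c : k1 = c := by linarith
    have h3 : Z = (Z - (c • vc (tt ei fj) - c • vc (tt ej fi))) + (c • vc (tt ei fj) - c • vc (tt ej fi)) := by abel
    rw [h3, h1, k1c, ← smul_sub, ← smul_add]
    congr 1
    abel
  -- the columns
  have hcol1 : ∀ a b : V κ, ee κ ℚ false *ᵥ vc (dl a b) =
      (1 / 2 : ℚ) • vc (tt a b) - (cr κ ℚ * psi κ ℚ a b) • vc (psi κ ℚ) := by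
    intro a b
    rw [ee_false, Matrix.sub_mulVec, Matrix.smul_mulVec, Matrix.sub_mulVec, Matrix.one_mulVec]
    congr 1
    · congr 1
      funext p
      obtain ⟨i, j⟩ := p
      rw [Pi.sub_apply, vc_apply, vc_apply, tt, Matrix.sub_apply]
      congr 1
      rw [Matrix.mulVec, dotProduct, Finset.sum_eq_single (j, i)]
      · rw [T, Prod.swap_prod_mk, if_pos rfl, one_mul, vc_apply, dl_apply, dl_apply]
        congr 1
        exact propext ⟨fun h => ⟨h.2, h.1⟩, fun h => ⟨h.2, h.1⟩⟩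
      · intro q _ hq
        rw [T, if_neg, zero_mul]
        intro h4
        apply hq
        rw [← Prod.swap_swap q, ← h4]
        rfl
      · intro h
        exact absurd (Finset.mem_univ _) h
    · funext p
      rw [Matrix.mulVec, dotProduct, Finset.sum_eq_single (a, b)]
      · rw [vc_apply, dl_apply, if_pos ⟨rfl, rfl⟩, mul_one, E, Pi.smul_apply, smul_eq_mul, vc]
        ring
      · intro q _ hq
        rw [vc, dl_apply, if_neg, mul_zero]
        rintro ⟨h1, h2⟩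
        exact hq (Prod.ext h1.symm h2.symm)
      · intro h
        exact absurd (Finset.mem_univ _) h
  have hom : vc (psi κ ℚ) = ∑ k : κ, vc (tt (Sum.inl k) (Sum.inr k)) := by
    funext p
    rw [Finset.sum_apply]
    obtain ⟨x | x, y | y⟩ := p
    · simp [vc_apply, tt_apply, psi]
    · simp only [vc_apply, tt_apply, psi, Matrix.fromBlocks_apply₁₂, reduceCtorEq, false_and, if_false, sub_zero,
        Sum.inl.injEq, Sum.inr.injEq, Matrix.one_apply]
      rw [Finset.sum_eq_single x]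
      · simp
      · intro k _ hk
        rw [if_neg (fun h => hk h.1)]
      · intro h
        exact absurd (Finset.mem_univ _) h
    · simp only [vc_apply, tt_apply, psi, Matrix.fromBlocks_apply₂₁, reduceCtorEq, false_and, if_false, zero_sub,
        Sum.inl.injEq, Sum.inr.injEq, Matrix.neg_apply, Matrix.one_apply, Finset.sum_neg_distrib]
      congr 1
      rw [Finset.sum_eq_single x]
      · simp
      · intro k _ hk
        rw [if_neg (fun h => hk h.1)]
      · intro h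
        exact absurd (Finset.mem_univ _) h
    · simp [vc_apply, tt_apply, psi]
  have hdual : ∀ i : κ, A *ᵥ ((1 / 2 : ℚ) • vc (tt (Sum.inl i) (Sum.inr i)) - cr κ ℚ • vc (psi κ ℚ)) =
      c • ((1 / 2 : ℚ) • vc (tt (Sum.inl i) (Sum.inr i)) - cr κ ℚ • vc (psi κ ℚ)) := by
    intro i
    have h1 : (1 / 2 : ℚ) • vc (tt (Sum.inl i) (Sum.inr i)) - cr κ ℚ • vc (psi κ ℚ) =
        cr κ ℚ • ∑ k : κ, vc (tt (Sum.inl i) (Sum.inr i) - tt (Sum.inl k) (Sum.inr k)) := by
      have h2 : ∀ k : κ, vc (tt (Sum.inl i) (Sum.inr i) - tt (Sum.inl k) (Sum.inr k) : Matrix (V κ) (V κ) ℚ) =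
          vc (tt (Sum.inl i) (Sum.inr i)) - vc (tt (Sum.inl k) (Sum.inr k)) := fun k => rfl
      simp only [h2]
      rw [Finset.sum_sub_distrib, ← hom, Finset.sum_const, Finset.card_univ, smul_sub, ← Nat.cast_smul_eq_nsmul ℚ, smul_smul]
      congr 2
      have h3 := cr_mul (κ := κ) (K := ℚ)
      linarith
    rw [h1, Matrix.mulVec_smul, Matrix.mulVec_sum, Finset.sum_congr rfl fun k _ => hzero i k, ← Finset.smul_sum, smul_comm]
  refine ⟨c, ext_col false fun a b => ?_⟩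
  have hfin : ∀ x : V κ × V κ → ℚ, A *ᵥ x = A *ᵥ (ee κ ℚ false *ᵥ x) := by
    intro x
    rw [Matrix.mulVec_mulVec, hA2]
  rw [hfin, hcol1]
  by_cases hd : b = du a
  · rcases a with i | i
    · have hb : b = Sum.inr i := hd
      subst hb
      rw [psi_inl, mul_one]
      exact hdual i
    · have hb : b = Sum.inl i := hd
      subst hb
      have h1 : psi κ ℚ (Sum.inr i) (Sum.inl i) = -1 := by
        rw [psi, Matrix.fromBlocks_apply₂₁, Matrix.neg_apply, Matrix.one_apply_eq]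
      have h2 : vc (tt (Sum.inr i) (Sum.inl i) : Matrix (V κ) (V κ) ℚ) = -vc (tt (Sum.inl i) (Sum.inr i)) := by
        funext p
        simp only [Pi.neg_apply, vc, tt, Matrix.sub_apply, neg_sub]
      rw [h1, h2]
      have h3 : (1 / 2 : ℚ) • -vc (tt (Sum.inl i) (Sum.inr i)) - (cr κ ℚ * -1) • vc (psi κ ℚ) =
          -((1 / 2 : ℚ) • vc (tt (Sum.inl i) (Sum.inr i)) - cr κ ℚ • vc (psi κ ℚ)) := by
        rw [smul_neg, mul_neg, mul_one, neg_smul]
        abel
      rw [h3, Matrix.mulVec_neg, hdual, smul_neg]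
  · rw [psi_zero hd, mul_zero, zero_smul, sub_zero, Matrix.mulVec_smul, smul_comm]
    congr 1
    by_cases hab : b = a
    · subst hab
      have h0 : vc (tt b b : Matrix (V κ) (V κ) ℚ) = 0 := by
        rw [tt, sub_self]
        rfl
      rw [h0, Matrix.mulVec_zero, smul_zero]
    · rw [hC a b hab hd, hCc a b hab hd]

end S8
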