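import Pool.Agent.Helper14.S8.Com
import Pool.Agent.Helper14.S8.Fam
import Pool.Agent.Helper24.PGN.GQ

/-!
Sharpness, Siegel type (MP_b8862a_ag): Hodge numbers `r (r + 1) / 2, r ^ 2` (symmetric square) and
`r (r - 1) / 2, r ^ 2 - 1` (primitive part of the exterior square) of the structures of weight one and genus `r`
(after Helper94/SH/Main5).
-/

set_option linter.unusedSectionVars false
set_option linter.unusedVariables false

open Matrix Module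
open scoped Kronecker

namespace S8

open MH MH.PGN SH94

variable {κ : Type} [Fintype κ] [DecidableEq κ]

/-- the symmetric matrix of a parameter -/
def X5 (t : κ → κ → ℝ) : Matrix κ κ ℝ := Matrix.of t + (Matrix.of t)ᵀ

theorem X5_tr (t : κ → κ → ℝ) : (X5 t)ᵀ = X5 t := by
  rw [X5, Matrix.transpose_add, Matrix.transpose_transpose, add_comm]

/-- the complexification -/
noncomputable def Z5 (t : κ → κ → ℝ) : Matrix κ κ ℂ := (X5 t).map Complex.ofRealHom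

theorem Z5_tr (t : κ → κ → ℝ) : (Z5 t)ᵀ = Z5 t := by
  rw [Z5, ← Matrix.transpose_map, X5_tr]

theorem Z5_conj (t : κ → κ → ℝ) : (Z5 t).map (starRingEnd ℂ) = Z5 t := by
  ext i j
  simp [Z5]

theorem uu_map {R R' : Type*} [CommRing R] [CommRing R'] (f : R →+* R') (X : Matrix κ κ R) :
    (uu X).map f = uu (X.map f) := by
  rw [uu, uu, Matrix.fromBlocks_map]
  congr 1
  · exact Matrix.map_one _ (map_zero f) (map_one f)
  · exact Matrix.map_zero _ (map_zero f)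
  · exact Matrix.map_one _ (map_zero f) (map_one f)

theorem kron_map {R R' : Type*} [CommRing R] [CommRing R'] (f : R →+* R') (A B : Matrix (V κ) (V κ) R) :
    (A ⊗ₖ B).map f = (A.map f) ⊗ₖ (B.map f) := by
  ext p q
  simp

/-- the transporting isometry -/
noncomputable def g5 (t : κ → κ → ℝ) : Matrix (V κ × V κ) (V κ × V κ) ℂ := uu (Z5 t) ⊗ₖ uu (Z5 t)

/-- its inverse -/
noncomputable def h5 (t : κ → κ → ℝ) : Matrix (V κ × V κ) (V κ × V κ) ℂ := uu (-Z5 t) ⊗ₖ uu (-Z5 t)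

theorem g5_h5 (t : κ → κ → ℝ) : g5 t * h5 t = 1 := by
  rw [g5, h5, kron_sq, uu_inv, Matrix.one_kronecker_one]

theorem h5_g5 (t : κ → κ → ℝ) : h5 t * g5 t = 1 := by
  rw [g5, h5, kron_sq, uu_inv', Matrix.one_kronecker_one]

theorem g5_conj (t : κ → κ → ℝ) : (g5 t).map (starRingEnd ℂ) = g5 t := by
  rw [g5, kron_map, uu_map, Z5_conj]

theorem g5_iso (t : κ → κ → ℝ) : (g5 t)ᵀ * toC (Q5 κ) * g5 t = toC (Q5 κ) := by
  rw [g5, toC_Q5, ← Matrix.kroneckerMap_transpose, kron_sq, kron_sq, uu_iso (Z5_tr t)]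

theorem g5_ee (b : Bool) (t : κ → κ → ℝ) : g5 t * ee κ ℂ b = ee κ ℂ b * g5 t :=
  ee_kron b (uu_iso' (Z5_tr t)) (uu_iso (Z5_tr t))

theorem h5_ee (b : Bool) (t : κ → κ → ℝ) : h5 t * ee κ ℂ b = ee κ ℂ b * h5 t := by
  have hz : (-Z5 t)ᵀ = -Z5 t := by rw [Matrix.transpose_neg, Z5_tr]
  exact ee_kron b (uu_iso' hz) (uu_iso hz)

/-- the Hodge projections of the family -/
noncomputable def PP5 (t : κ → κ → ℝ) (p : ℤ) : Matrix (V κ × V κ) (V κ × V κ) ℂ := g5 t * P5 κ p * h5 t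

theorem isHW5 (t : κ → κ → ℝ) : IsHW 2 (Q5 κ) {0, 1, 2} (PP5 t) :=
  base5.conj27 (g5_h5 t) (h5_g5 t) (g5_conj t) (g5_iso t)

theorem toC_ee (b : Bool) : toC (ee κ ℚ b) = ee κ ℂ b := ee_map b (algebraMap ℚ ℂ)

/-! ### the base point and the idempotent -/

theorem P5_E (p : ℤ) : P5 κ p * E κ ℂ = if p = 1 then E κ ℂ else 0 := by
  have h1 : q1 κ * psi κ ℂ * (q1 κ)ᵀ = 0 := by rw [q1_tr, q1_psi, Matrix.smul_mul, q10, smul_zero]
  have h2 : q0 κ * psi κ ℂ * (q0 κ)ᵀ = 0 := by rw [q0_tr, q0_psi, Matrix.smul_mul, q01, smul_zero]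
  have h3 : q1 κ * psi κ ℂ * (q0 κ)ᵀ + q0 κ * psi κ ℂ * (q1 κ)ᵀ = psi κ ℂ := by
    rw [q0_tr, q1_tr, mul_assoc, mul_assoc, psi_q1, psi_q0, Matrix.mul_smul, Matrix.mul_smul, q1_sq, q0_sq, ← psi_q1,
      ← psi_q0, ← mul_add, q_add, Matrix.mul_one]
  by_cases hp : p ∈ ({0, 1, 2} : Finset ℤ)
  · simp only [Finset.mem_insert, Finset.mem_singleton] at hp
    rcases hp with rfl | rfl | rfl
    · rw [P5_zero, E_eq, kron_E', h2, E'_zero_left, if_neg (by norm_num)]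
    · rw [P5_one, E_eq, add_mul, kron_E', kron_E', ← E'_add_left, h3, if_pos rfl]
    · rw [P5_two, E_eq, kron_E', h1, E'_zero_left, if_neg (by norm_num)]
  · rw [P5_else hp, Matrix.zero_mul, if_neg]
    rintro rfl
    exact hp (by decide)

theorem E_P5 (p : ℤ) : E κ ℂ * P5 κ p = if p = 1 then E κ ℂ else 0 := by
  have h1 : (q1 κ)ᵀ * psi κ ℂ * q1 κ = 0 := by rw [q1_tr, q0_psi, Matrix.smul_mul, q01, smul_zero]
  have h2 : (q0 κ)ᵀ * psi κ ℂ * q0 κ = 0 := by rw [q0_tr, q1_psi, Matrix.smul_mul, q10, smul_zero]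
  have h3 : (q1 κ)ᵀ * psi κ ℂ * q0 κ + (q0 κ)ᵀ * psi κ ℂ * q1 κ = psi κ ℂ := by
    rw [q0_tr, q1_tr, mul_assoc, mul_assoc, psi_q1, psi_q0, Matrix.mul_smul, Matrix.mul_smul, q1_sq, q0_sq, ← psi_q1,
      ← psi_q0, ← mul_add, add_comm (q0 κ) (q1 κ), q_add, Matrix.mul_one]
  by_cases hp : p ∈ ({0, 1, 2} : Finset ℤ)
  · simp only [Finset.mem_insert, Finset.mem_singleton] at hp
    rcases hp with rfl | rfl | rfl
    · rw [P5_zero, E_eq, E'_kron, h2, E'_zero_right, if_neg (by norm_num)]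
    · rw [P5_one, E_eq, mul_add, E'_kron, E'_kron, ← E'_add_right, h3, if_pos rfl]
    · rw [P5_two, E_eq, E'_kron, h1, E'_zero_right, if_neg (by norm_num)]
  · rw [P5_else hp, Matrix.mul_zero, if_neg]
    rintro rfl
    exact hp (by decide)

theorem P5_T (p : ℤ) : P5 κ p * T (V κ) ℂ = T (V κ) ℂ * P5 κ p := by
  by_cases hp : p ∈ ({0, 1, 2} : Finset ℤ)
  · simp only [Finset.mem_insert, Finset.mem_singleton] at hp
    rcases hp with rfl | rfl | rfl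
    · rw [P5_zero, T_kron]
    · rw [P5_one, mul_add, add_mul, T_kron, T_kron, add_comm]
    · rw [P5_two, T_kron]
  · rw [P5_else hp, Matrix.mul_zero, Matrix.zero_mul]

theorem P5_ee (b : Bool) (p : ℤ) : P5 κ p * ee κ ℂ b = ee κ ℂ b * P5 κ p := by
  cases b
  · rw [ee_false, mul_sub, sub_mul, Matrix.mul_smul, Matrix.smul_mul, mul_sub, sub_mul, Matrix.mul_one, Matrix.one_mul,
      P5_T, P5_E, E_P5]
  · rw [ee_true, Matrix.mul_smul, Matrix.smul_mul, mul_add, add_mul, Matrix.mul_one, Matrix.one_mul, P5_T]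

theorem PP5_ee (b : Bool) (t : κ → κ → ℝ) (p : ℤ) : PP5 t p * ee κ ℂ b = ee κ ℂ b * PP5 t p := by
  unfold PP5
  rw [mul_assoc (g5 t * P5 κ p), h5_ee, ← mul_assoc, mul_assoc (g5 t), P5_ee, ← mul_assoc (g5 t), g5_ee]
  simp only [mul_assoc]

theorem trace_T (A B : Matrix (V κ) (V κ) ℂ) : (A ⊗ₖ B * T (V κ) ℂ).trace = (A * B).trace := by
  have h : ∀ p, (A ⊗ₖ B * T (V κ) ℂ) p p = A p.1 p.2 * B p.2 p.1 := by
    intro p
    rw [mul_T_apply, Matrix.kroneckerMap_apply, Prod.fst_swap, Prod.snd_swap]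
  simp only [Matrix.trace, Matrix.diag_apply, h, Matrix.mul_apply]
  rw [Fintype.sum_prod_type]

theorem q1_trace : (q1 κ).trace = Fintype.card κ := by
  rw [q1, Matrix.trace_smul, Matrix.trace_add, Matrix.trace_smul, psi_trace, trace_oneV, smul_zero, add_zero, smul_eq_mul]
  ring

theorem q0_trace : (q0 κ).trace = Fintype.card κ := by
  rw [q0_eq, Matrix.trace_sub, q1_trace, trace_oneV]
  ring

theorem trace_P5_true (p : ℤ) : (P5 κ p * ee κ ℂ true).trace =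
    1 / 2 * ((P5 κ p).trace + (P5 κ p * T (V κ) ℂ).trace) := by
  rw [ee_true, Matrix.mul_smul, mul_add, Matrix.mul_one, Matrix.trace_smul, Matrix.trace_add, smul_eq_mul]

theorem trace_P5_false [Nonempty κ] (p : ℤ) : (P5 κ p * ee κ ℂ false).trace =
    1 / 2 * ((P5 κ p).trace - (P5 κ p * T (V κ) ℂ).trace) - if p = 1 then 1 else 0 := by
  rw [ee_false, mul_sub, Matrix.mul_smul, mul_sub, Matrix.mul_one, Matrix.trace_sub, Matrix.trace_smul, Matrix.trace_sub,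
    P5_E, smul_eq_mul]
  split_ifs
  · rw [E_trace]
  · rw [Matrix.trace_zero]

theorem idem_P5 [Nonempty κ] (b : Bool) (p : ℤ) : P5 κ p * ee κ ℂ b * (P5 κ p * ee κ ℂ b) = P5 κ p * ee κ ℂ b := by
  calc P5 κ p * ee κ ℂ b * (P5 κ p * ee κ ℂ b) = P5 κ p * (ee κ ℂ b * P5 κ p) * ee κ ℂ b := by simp only [mul_assoc]
    _ = (P5 κ p * P5 κ p) * (ee κ ℂ b * ee κ ℂ b) := by rw [← P5_ee]; simp only [mul_assoc]
    _ = P5 κ p * ee κ ℂ b := by rw [P5_mul, if_pos rfl, ee_idem]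

theorem rank_two_true [Nonempty κ] : 2 * (P5 κ 2 * ee κ ℂ true).rank = Fintype.card κ * (Fintype.card κ + 1) := by
  have h := trace_eq_rank (idem_P5 (κ := κ) true 2)
  rw [trace_P5_true, P5_two, trace_T, Matrix.trace_kronecker, q1_sq, q1_trace] at h
  have h2 : ((2 * (P5 κ 2 * ee κ ℂ true).rank : ℕ) : ℂ) = ((Fintype.card κ * (Fintype.card κ + 1) : ℕ) : ℂ) := by
    push_cast
    rw [P5_two, ← h]
    ring
  exact_mod_cast h2

theorem rank_one_true [Nonempty κ] : (P5 κ 1 * ee κ ℂ true).rank = Fintype.card κ ^ 2 := by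
  have h := trace_eq_rank (idem_P5 (κ := κ) true 1)
  rw [trace_P5_true, P5_one, add_mul, Matrix.trace_add, Matrix.trace_add, trace_T, trace_T,
    Matrix.trace_kronecker, Matrix.trace_kronecker, q10, q01, q0_trace, q1_trace, Matrix.trace_zero] at h
  have h2 : (((P5 κ 1 * ee κ ℂ true).rank : ℕ) : ℂ) = ((Fintype.card κ ^ 2 : ℕ) : ℂ) := by
    push_cast
    rw [P5_one, ← h]
    ring
  exact_mod_cast h2

theorem rank_two_false [Nonempty κ] : 2 * (P5 κ 2 * ee κ ℂ false).rank = Fintype.card κ * (Fintype.card κ - 1) := by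
  have h := trace_eq_rank (idem_P5 (κ := κ) false 2)
  rw [trace_P5_false, if_neg (by norm_num), P5_two, trace_T, Matrix.trace_kronecker, q1_sq, q1_trace] at h
  have h1 : 1 ≤ Fintype.card κ := Fintype.card_pos
  have h2 : ((2 * (P5 κ 2 * ee κ ℂ false).rank : ℕ) : ℂ) = ((Fintype.card κ * (Fintype.card κ - 1) : ℕ) : ℂ) := by
    rw [Nat.cast_mul, Nat.cast_mul, Nat.cast_sub h1]
    push_cast
    rw [P5_two, ← h]
    ring
  exact_mod_cast h2

theorem rank_one_false [Nonempty κ] : (P5 κ 1 * ee κ ℂ false).rank + 1 = Fintype.card κ ^ 2 := by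
  have h := trace_eq_rank (idem_P5 (κ := κ) false 1)
  rw [trace_P5_false, if_pos rfl, P5_one, add_mul, Matrix.trace_add, Matrix.trace_add, trace_T, trace_T,
    Matrix.trace_kronecker, Matrix.trace_kronecker, q10, q01, q0_trace, q1_trace, Matrix.trace_zero] at h
  have h2 : (((P5 κ 1 * ee κ ℂ false).rank + 1 : ℕ) : ℂ) = ((Fintype.card κ ^ 2 : ℕ) : ℂ) := by
    push_cast
    rw [P5_one, ← h]
    ring
  exact_mod_cast h2

theorem rank_PP5 (b : Bool) (t : κ → κ → ℝ) (p : ℤ) : (PP5 t p * ee κ ℂ b).rank = (P5 κ p * ee κ ℂ b).rank := by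
  have h : PP5 t p * ee κ ℂ b = g5 t * (P5 κ p * ee κ ℂ b) * h5 t := by
    unfold PP5
    rw [mul_assoc (g5 t * P5 κ p), h5_ee]
    simp only [mul_assoc]
  rw [h]
  exact rank_conj27 (g5_h5 t) (h5_g5 t) _

/-! ### the Hodge cocharacter -/

theorem base_h : P5 κ 2 - P5 κ 0 = (Complex.I / 2) • D (psi κ ℂ) := by
  have h : (Complex.I / 2) • D (psi κ ℂ) = (1 / 2 : ℂ) • D (Complex.I • psi κ ℂ) := by
    rw [D_smul, smul_smul]
    congr 1
    ring
  have h1 : Complex.I • psi κ ℂ = q1 κ - q0 κ := by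
    rw [q1, q0, ← smul_sub, add_sub_sub_cancel, ← two_smul ℂ (Complex.I • psi κ ℂ), smul_smul]
    norm_num
  rw [h, h1, P5_two, P5_zero, D]
  rw [← q_add]
  simp only [sub_eq_add_neg, Matrix.add_kronecker, Matrix.kronecker_add]
  have n1 : ∀ A B : Matrix (V κ) (V κ) ℂ, (-A) ⊗ₖ B = -(A ⊗ₖ B) := by
    intro A B
    ext p q
    simp
  have n2 : ∀ A B : Matrix (V κ) (V κ) ℂ, A ⊗ₖ (-B) = -(A ⊗ₖ B) := by
    intro A B
    ext p q
    simp
  simp only [n1, n2]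
  have h2 : q1 κ ⊗ₖ q1 κ + -q0 κ ⊗ₖ q1 κ + (q1 κ ⊗ₖ q0 κ + -q0 κ ⊗ₖ q0 κ) +
      (q1 κ ⊗ₖ q1 κ + q0 κ ⊗ₖ q1 κ + (-q1 κ ⊗ₖ q0 κ + -q0 κ ⊗ₖ q0 κ)) =
      (2 : ℂ) • (q1 κ ⊗ₖ q1 κ + -q0 κ ⊗ₖ q0 κ) := by
    rw [two_smul]
    abel
  rw [h2, smul_smul]
  norm_num

theorem PP5_h (t : κ → κ → ℝ) : PP5 t 2 - PP5 t 0 = (Complex.I / 2) • D (JJ (Z5 t)) := by
  unfold PP5
  rw [← sub_mul, ← mul_sub, base_h, mul_smul_comm, smul_mul_assoc, g5, h5, D_conj (uu_inv _), uu_psi]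

theorem rC_D (X : Matrix κ κ ℝ) : rC (D (JJ X)) = D (JJ (X.map Complex.ofRealHom)) := by
  have h1 : (JJ X).map Complex.ofRealHom = JJ (X.map Complex.ofRealHom) := by
    rw [JJ, JJ, Matrix.fromBlocks_map]
    congr 1
    · ext i j
      simp
    · ext i j
      simp only [Matrix.map_apply, Matrix.add_apply, Matrix.mul_apply, Matrix.one_apply, map_add, map_sum, map_mul]
      split_ifs <;> simp
    · ext i j
      simp only [Matrix.map_apply, Matrix.neg_apply, Matrix.one_apply, map_neg]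
      split_ifs <;> simp
  rw [← h1, ← D_map]
  rfl

theorem rC_inj {m : Type*} [Fintype m] [DecidableEq m] {A B : Matrix m m ℝ} (h : rC A = rC B) : A = B := by
  ext i j
  have := congrFun (congrFun h i) j
  simpa [rC] using this

/-- the commutant of the family on the summand is the scalars -/
theorem gen5 (b : Bool) (hr : 2 ≤ Fintype.card κ) {U : Set (κ → κ → ℝ)} (hU : IsOpen U) (hne : U.Nonempty)
    {A : Matrix (V κ × V κ) (V κ × V κ) ℚ}
    (hA : ee κ ℚ b * A * ee κ ℚ b = A) (h : ∀ t ∈ U, ∀ p, toC A * PP5 t p = PP5 t p * toC A) :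
    ∃ c : ℚ, A = c • ee κ ℚ b := by
  have h1 : ∀ t ∈ U, A.map (algebraMap ℚ ℝ) * D (JJ (Matrix.of t + (Matrix.of t)ᵀ)) =
      D (JJ (Matrix.of t + (Matrix.of t)ᵀ)) * A.map (algebraMap ℚ ℝ) := by
    intro t ht
    apply rC_inj
    rw [rC_mul, rC_mul, rC_rat, rC_D]
    have h2 : toC A * (PP5 t 2 - PP5 t 0) = (PP5 t 2 - PP5 t 0) * toC A := by
      rw [mul_sub, sub_mul, h t ht, h t ht]
    rw [PP5_h, mul_smul_comm, smul_mul_assoc] at h2
    exact smul_right_injective _ (div_ne_zero Complex.I_ne_zero two_ne_zero) h2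
  obtain ⟨k1, k2⟩ := comm_all hU hne h1
  have hm : ∀ Y : Matrix (V κ) (V κ) ℚ, A.map (algebraMap ℚ ℝ) * D (Y.map (algebraMap ℚ ℝ)) =
      D (Y.map (algebraMap ℚ ℝ)) * A.map (algebraMap ℚ ℝ) → Cm A Y := by
    intro Y hY
    rw [← D_map, ← Matrix.map_mul, ← Matrix.map_mul] at hY
    unfold Cm
    ext i j
    have := congrFun (congrFun hY i) j
    simp only [Matrix.map_apply] at this
    exact (algebraMap ℚ ℝ).injective this
  have hN : ∀ u, Cm A (Nn u) := by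
    intro u
    refine Cm.nn (fun S hS => hm _ ?_) (fun S hS => hm _ ?_) u
    · have e : (nU S).map (algebraMap ℚ ℝ) = nU (S.map (algebraMap ℚ ℝ)) := by
        rw [nU, nU, Matrix.fromBlocks_map]
        congr 1 <;> exact Matrix.map_zero _ (map_zero _)
      rw [e]
      exact k1 _ (by rw [← Matrix.transpose_map, hS])
    · have e : (nL S).map (algebraMap ℚ ℝ) = nL (S.map (algebraMap ℚ ℝ)) := by
        rw [nL, nL, Matrix.fromBlocks_map]
        congr 1 <;> exact Matrix.map_zero _ (map_zero _)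
      rw [e]
      exact k2 _ (by rw [← Matrix.transpose_map, hS])
  cases b
  · exact end_alt hr hA hN
  · have hne : Nonempty κ := Fintype.card_pos_iff.1 (by omega)
    exact end_sym hA hN

/-! ### the rational equivariant map -/

/-- `Z ↦ e D(Z) e` -/
noncomputable def G5 (κ : Type) [Fintype κ] [DecidableEq κ] (b : Bool) :
    Matrix (V κ) (V κ) ℂ →ₗ[ℂ] Matrix (V κ × V κ) (V κ × V κ) ℂ where
  toFun Z := ee κ ℂ b * D Z * ee κ ℂ b
  map_add' X Y := by rw [D_add, mul_add, add_mul]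
  map_smul' c X := by rw [D_smul, mul_smul_comm, smul_mul_assoc, RingHom.id_apply]

/-- `M ↦ tr₂(e M e)` -/
noncomputable def K5 (κ : Type) [Fintype κ] [DecidableEq κ] (b : Bool) :
    Matrix (V κ × V κ) (V κ × V κ) ℂ →ₗ[ℂ] Matrix (V κ) (V κ) ℂ where
  toFun M := tr2 (ee κ ℂ b * M * ee κ ℂ b)
  map_add' X Y := by rw [mul_add, add_mul, map_add]
  map_smul' c X := by rw [mul_smul_comm, smul_mul_assoc, map_smul, RingHom.id_apply]

theorem F5_rat (b : Bool) (A : Matrix (V κ × V κ) (V κ × V κ) ℚ) :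
    ∃ A' : Matrix (V κ × V κ) (V κ × V κ) ℚ, (G5 κ b ∘ₗ K5 κ b) (toC A) = toC A' := by
  refine ⟨ee κ ℚ b * D (tr2 (ee κ ℚ b * A * ee κ ℚ b)) * ee κ ℚ b, ?_⟩
  show ee κ ℂ b * D (tr2 (ee κ ℂ b * toC A * ee κ ℂ b)) * ee κ ℂ b = _
  have h1 : ee κ ℂ b * toC A * ee κ ℂ b = cC (ee κ ℚ b * A * ee κ ℚ b) := by
    rw [cC_mul, cC_mul]
    congr 1
    · congr 1
      exact (toC_ee b).symm
    · exact (toC_ee b).symm
  have h2 : tr2 (cC (ee κ ℚ b * A * ee κ ℚ b)) = cC (tr2 (ee κ ℚ b * A * ee κ ℚ b)) := by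
    ext i k
    rw [tr2_apply]
    show _ = algebraMap ℚ ℂ (tr2 (ee κ ℚ b * A * ee κ ℚ b) i k)
    rw [tr2_apply, map_sum]
    rfl
  have h3 : D (cC (tr2 (ee κ ℚ b * A * ee κ ℚ b))) = cC (D (tr2 (ee κ ℚ b * A * ee κ ℚ b))) :=
    (D_map (algebraMap ℚ ℂ) _).symm
  rw [h1, h2, h3]
  show _ = cC _
  rw [cC_mul, cC_mul]
  congr 1
  · congr 1
    exact (toC_ee b).symm
  · exact (toC_ee b).symm

theorem F5_rank (b : Bool) : finrank ℂ (LinearMap.range (G5 κ b ∘ₗ K5 κ b)) ≤ 4 * Fintype.card κ ^ 2 := by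
  refine (Submodule.finrank_mono (LinearMap.range_comp_le_range _ _)).trans ((LinearMap.finrank_range_le _).trans ?_)
  rw [Module.finrank_matrix, finrank_self, Fintype.card_sum]
  apply le_of_eq
  ring

section restr

variable {m : Type} [Fintype m] [DecidableEq m] {B : Matrix m (V κ × V κ) ℚ} {C : Matrix (V κ × V κ) m ℚ}

theorem toC_cb {b : Bool} (h2 : C * B = ee κ ℚ b) : toC (C * B) = ee κ ℂ b := by rw [h2, toC_ee]

theorem comm_cb' {b : Bool} (h2 : C * B = ee κ ℚ b) (t : κ → κ → ℝ) (p : ℤ) :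
    toC (C * B) * PP5 t p = PP5 t p * toC (C * B) := by
  rw [toC_cb h2, PP5_ee]

theorem cont_PP5 (B : Matrix m (V κ × V κ) ℚ) (C : Matrix (V κ × V κ) m ℚ) (p : ℤ) :
    Continuous fun t : κ → κ → ℝ => cC B * PP5 t p * cC C := by
  have hu : Continuous fun t : κ → κ → ℝ => uu (Z5 t) := by
    refine continuous_matrix fun i j => ?_
    rcases i with i | i <;> rcases j with j | j
    · exact continuous_const
    · show Continuous fun t : κ → κ → ℝ => (((t i j + t j i : ℝ)) : ℂ)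
      fun_prop
    · exact continuous_const
    · exact continuous_const
  have hu' : Continuous fun t : κ → κ → ℝ => uu (-Z5 t) := by
    refine continuous_matrix fun i j => ?_
    rcases i with i | i <;> rcases j with j | j
    · exact continuous_const
    · show Continuous fun t : κ → κ → ℝ => -(((t i j + t j i : ℝ)) : ℂ)
      fun_prop
    · exact continuous_const
    · exact continuous_const
  have hg : Continuous fun t : κ → κ → ℝ => g5 t := by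
    refine continuous_matrix fun p q => ?_
    exact (hu.matrix_elem p.1 q.1).mul (hu.matrix_elem p.2 q.2)
  have hh : Continuous fun t : κ → κ → ℝ => h5 t := by
    refine continuous_matrix fun p q => ?_
    exact (hu'.matrix_elem p.1 q.1).mul (hu'.matrix_elem p.2 q.2)
  exact (continuous_const.matrix_mul ((hg.matrix_mul continuous_const).matrix_mul hh)).matrix_mul continuous_const

theorem gen_restr0 {b : Bool} (hr : 2 ≤ Fintype.card κ) (h1 : B * C = 1) (h2 : C * B = ee κ ℚ b)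
    (U : Set (κ → κ → ℝ)) (hU : IsOpen U) (hne : U.Nonempty) (A : Matrix m m ℚ)
    (hA : ∀ t ∈ U, ∀ p, toC A * (cC B * PP5 t p * cC C) = cC B * PP5 t p * cC C * toC A) :
    ∃ c : ℚ, A = c • (1 : Matrix m m ℚ) := by
  have k : ∀ A' : Matrix (V κ × V κ) (V κ × V κ) ℚ, C * B * A' * (C * B) = A' →
      (∀ x : U × ℤ, toC A' * PP5 x.1.1 x.2 = PP5 x.1.1 x.2 * toC A') → ∃ c : ℚ, A' = c • (C * B) := by
    intro A' hA' hcomm
    rw [h2] at hA' ⊢
    exact gen5 b hr hU hne hA' fun t ht p => hcomm (⟨t, ht⟩, p)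
  exact end_restrict (P := fun x : U × ℤ => PP5 x.1.1 x.2) h1 (fun x => comm_cb' h2 x.1.1 x.2) k A
    (fun x => hA x.1.1 x.1.2 x.2)

theorem gen_restr {b : Bool} (hr : 2 ≤ Fintype.card κ) (h1 : B * C = 1) (h2 : C * B = ee κ ℚ b) :
    ∃ t : κ → κ → ℝ, ∀ A : Matrix m m ℚ, (∀ p, toC A * (cC B * PP5 t p * cC C) = cC B * PP5 t p * cC C * toC A) →
      ∃ c : ℚ, A = c • (1 : Matrix m m ℚ) :=
  exists_generic27 (T := κ → κ → ℝ) (fun t p => cC B * PP5 t p * cC C) (cont_PP5 B C) (gen_restr0 hr h1 h2)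

theorem not_restr {b : Bool} (hr : 2 ≤ Fintype.card κ) (h1 : B * C = 1) (h2 : C * B = ee κ ℚ b) (t : κ → κ → ℝ)
    (hrk : 4 * Fintype.card κ ^ 2 < 2 * (P5 κ 2 * ee κ ℂ b).rank * (P5 κ 1 * ee κ ℂ b).rank) :
    ∃ g : GL m ℂ, (g : Matrix m m ℂ)ᵀ * toC (Cᵀ * Q5 κ * C) * (g : Matrix m m ℂ) = toC (Cᵀ * Q5 κ * C) ∧
      (g : Matrix m m ℂ).det = 1 ∧ g ∉ MT {0, 1, 2} (fun p => cC B * PP5 t p * cC C) := by
  have hne : Nonempty κ := Fintype.card_pos_iff.1 (by omega)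
  have hcb := toC_cb h2
  have hs1 : JJ (Z5 t) * psi κ ℂ + psi κ ℂ * (JJ (Z5 t))ᵀ = 0 := JJ_psi (Z5_tr t)
  have hs2 : (JJ (Z5 t))ᵀ * psi κ ℂ + psi κ ℂ * JJ (Z5 t) = 0 := psi_JJ (Z5_tr t)
  obtain ⟨Y, hY⟩ : ∃ Y, Y = (Complex.I / 2) • JJ (Z5 t) := ⟨_, rfl⟩
  have hh : PP5 t 2 - PP5 t 0 = D Y := by rw [PP5_h, hY, D_smul]
  have hY1 : Y * psi κ ℂ + psi κ ℂ * Yᵀ = 0 := by
    rw [hY, Matrix.transpose_smul, smul_mul_assoc, mul_smul_comm, ← smul_add, hs1, smul_zero]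
  have hY2 : Yᵀ * psi κ ℂ + psi κ ℂ * Y = 0 := by
    rw [hY, Matrix.transpose_smul, smul_mul_assoc, mul_smul_comm, ← smul_add, hs2, smul_zero]
  have hY3 : Y.trace = 0 := by rw [hY, Matrix.trace_smul, JJ_trace, smul_zero]
  have hYe : D Y * ee κ ℂ b = ee κ ℂ b * D Y := ee_D b hY1 hY2
  have hee : ee κ ℂ b * ee κ ℂ b = ee κ ℂ b := ee_idem b
  have hc0 : ((Fintype.card κ : ℂ) + sgn ℂ b) ≠ 0 := by
    cases b
    · rw [sgn, if_neg (by decide), ← sub_eq_add_neg, sub_ne_zero]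
      have : Fintype.card κ ≠ 1 := by omega
      exact_mod_cast this
    · rw [sgn, if_pos rfl]
      exact_mod_cast Nat.succ_ne_zero (Fintype.card κ)
  have k1 : ∀ X, ee κ ℂ b * X * ee κ ℂ b = X → (G5 κ b ∘ₗ K5 κ b) (D Y * X - X * D Y) =
      D Y * (G5 κ b ∘ₗ K5 κ b) X - (G5 κ b ∘ₗ K5 κ b) X * D Y := by
    intro X hX
    show ee κ ℂ b * D (tr2 (ee κ ℂ b * (D Y * X - X * D Y) * ee κ ℂ b)) * ee κ ℂ b =
      D Y * (ee κ ℂ b * D (tr2 (ee κ ℂ b * X * ee κ ℂ b)) * ee κ ℂ b) -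
        ee κ ℂ b * D (tr2 (ee κ ℂ b * X * ee κ ℂ b)) * ee κ ℂ b * D Y
    have hX1 : ee κ ℂ b * X = X := by
      rw [← hX, ← mul_assoc, ← mul_assoc, hee]
    have hX2 : X * ee κ ℂ b = X := by
      rw [← hX, mul_assoc, hee]
    have e1 : ee κ ℂ b * (D Y * X - X * D Y) * ee κ ℂ b = D Y * X - X * D Y := by
      rw [mul_sub, sub_mul, ← mul_assoc, ← hYe, mul_assoc (D Y), hX1, mul_assoc (D Y), hX2, ← mul_assoc (ee κ ℂ b), hX1,
        mul_assoc X, hYe, ← mul_assoc X, hX2]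
    rw [e1, hX, tr2_brk, D_brk, mul_sub, sub_mul]
    congr 1
    · rw [← mul_assoc (ee κ ℂ b), ← hYe]
      simp only [mul_assoc]
    · rw [← mul_assoc (ee κ ℂ b), mul_assoc (ee κ ℂ b * D (tr2 X)), hYe]
      simp only [mul_assoc]
  have k2 : (G5 κ b ∘ₗ K5 κ b) (ee κ ℂ b * D Y) = ((Fintype.card κ : ℂ) + sgn ℂ b) • (ee κ ℂ b * D Y) := by
    show ee κ ℂ b * D (tr2 (ee κ ℂ b * (ee κ ℂ b * D Y) * ee κ ℂ b)) * ee κ ℂ b =
      ((Fintype.card κ : ℂ) + sgn ℂ b) • (ee κ ℂ b * D Y)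
    have e1 : ee κ ℂ b * (ee κ ℂ b * D Y) * ee κ ℂ b = ee κ ℂ b * D Y := by
      rw [← mul_assoc, hee, mul_assoc, hYe, ← mul_assoc, hee]
    rw [e1, tr2_ee_D b hY2 hY3, D_smul, mul_smul_comm, smul_mul_assoc, mul_assoc, hYe, ← mul_assoc, hee]
  have k3 : finrank ℂ (LinearMap.range (G5 κ b ∘ₗ K5 κ b)) <
      2 * (PP5 t 2 * ee κ ℂ b).rank * (PP5 t 1 * ee κ ℂ b).rank := by
    rw [rank_PP5, rank_PP5]
    exact (F5_rank b).trans_lt hrk
  obtain ⟨F, hF⟩ : ∃ F, F = G5 κ b ∘ₗ K5 κ b := ⟨_, rfl⟩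
  have k4 : ∀ A : Matrix (V κ × V κ) (V κ × V κ) ℚ, ∃ A' : Matrix (V κ × V κ) (V κ × V κ) ℚ, F (toC A) = toC A' := by
    rw [hF]
    exact F5_rat b
  rw [← hF] at k1 k2 k3
  exact not_mem_restrict (isHW5 t) h1 (comm_cb' h2 t) F k4 (by rw [hcb, hh]; exact k1) hc0 (by rw [hcb, hh]; exact k2)
    (by rw [hcb]; exact k3)

end restr

/-- **The summands of the tensor square.** -/
theorem sharp_all (b : Bool) (hr : 2 ≤ Fintype.card κ)
    (hrk : 4 * Fintype.card κ ^ 2 < 2 * (P5 κ 2 * ee κ ℂ b).rank * (P5 κ 1 * ee κ ℂ b).rank) :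
    ∃ (n : Type) (_ : Fintype n) (_ : DecidableEq n) (Q : Matrix n n ℚ)
    (P : ℤ → Matrix n n ℂ), IsHW 2 Q {0, 1, 2} P ∧
      (∀ A : Matrix n n ℚ, (∀ p, toC A * P p = P p * toC A) → ∃ c : ℚ, A = c • (1 : Matrix n n ℚ)) ∧
      (P 2).rank = (P5 κ 2 * ee κ ℂ b).rank ∧ (P 1).rank = (P5 κ 1 * ee κ ℂ b).rank ∧
      ∃ g : GL n ℂ, IsGQ 2 Q g ∧ g ∉ MT {0, 1, 2} P := by
  have hne : Nonempty κ := Fintype.card_pos_iff.1 (by omega)
  obtain ⟨m, i1, i2, B, C, h1, h2⟩ : ∃ (m : Type) (_ : Fintype m) (_ : DecidableEq m) (B : Matrix m (V κ × V κ) ℚ)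
      (C : Matrix (V κ × V κ) m ℚ), B * C = 1 ∧ C * B = ee κ ℚ b := by
    obtain ⟨B, C, h1, h2⟩ := exists_fact (ee_idem (κ := κ) (K := ℚ) b)
    exact ⟨Fin (ee κ ℚ b).rank, inferInstance, inferInstance, B, C, h1, h2⟩
  obtain ⟨t, ht⟩ := gen_restr hr h1 h2
  obtain ⟨g, g1, g2, g3⟩ := not_restr hr h1 h2 t hrk
  have hc := comm_cb' h2 t
  have hcb := toC_cb h2
  refine ⟨m, i1, i2, Cᵀ * Q5 κ * C, fun p => cC B * PP5 t p * cC C, restrict (isHW5 t) h1 hc, ht, ?_, ?_, g,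
    isGQ_of24 g1 g2, g3⟩
  · show (cC B * PP5 t 2 * cC C).rank = _
    rw [rank_restrict h1 hc, hcb, rank_PP5]
  · show (cC B * PP5 t 1 * cC C).rank = _
    rw [rank_restrict h1 hc, hcb, rank_PP5]

end S8

namespace MH

/-- **Sharpness, Siegel type, symmetric square**: Hodge numbers `r (r + 1) / 2, r ^ 2` -/
theorem sharp_sym (r : ℕ) (hr : 2 ≤ r) :
    ∃ (n : Type) (_ : Fintype n) (_ : DecidableEq n) (Q : Matrix n n ℚ) (P : ℤ → Matrix n n ℂ), IsHW 2 Q {0, 1, 2} P ∧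
      (∀ A : Matrix n n ℚ, (∀ p, toC A * P p = P p * toC A) → ∃ c : ℚ, A = c • (1 : Matrix n n ℚ)) ∧
      2 * (P 2).rank = r * (r + 1) ∧ (P 1).rank = r ^ 2 ∧ ∃ g : GL n ℂ, IsGQ 2 Q g ∧ g ∉ MT {0, 1, 2} P := by
  have hne : Nonempty (Fin r) := ⟨⟨0, by omega⟩⟩
  have e1 := S8.rank_two_true (κ := Fin r)
  have e2 := S8.rank_one_true (κ := Fin r)
  rw [Fintype.card_fin] at e1 e2
  obtain ⟨n, i1, i2, Q, P, H, hEnd, r2, r1, g⟩ := S8.sharp_all (κ := Fin r) true (by rw [Fintype.card_fin]; exact hr) (by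
    rw [e1, e2, Fintype.card_fin]
    nlinarith [mul_pos (show 0 < r by omega) (show 0 < r by omega), Nat.mul_le_mul hr hr,
      Nat.mul_le_mul_left (r * r) (Nat.mul_le_mul hr (show 3 ≤ r + 1 by omega))])
  exact ⟨n, i1, i2, Q, P, H, hEnd, by rw [r2, e1], by rw [r1, e2], g⟩

/-- **Sharpness, Siegel type, primitive exterior square**: Hodge numbers `r (r - 1) / 2, r ^ 2 - 1` -/
theorem sharp_ext (r : ℕ) (hr : 3 ≤ r) :
    ∃ (n : Type) (_ : Fintype n) (_ : DecidableEq n) (Q : Matrix n n ℚ) (P : ℤ → Matrix n n ℂ), IsHW 2 Q {0, 1, 2} P ∧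
      (∀ A : Matrix n n ℚ, (∀ p, toC A * P p = P p * toC A) → ∃ c : ℚ, A = c • (1 : Matrix n n ℚ)) ∧
      2 * (P 2).rank = r * (r - 1) ∧ (P 1).rank + 1 = r ^ 2 ∧ ∃ g : GL n ℂ, IsGQ 2 Q g ∧ g ∉ MT {0, 1, 2} P := by
  have hne : Nonempty (Fin r) := ⟨⟨0, by omega⟩⟩
  have e1 := S8.rank_two_false (κ := Fin r)
  have e2 := S8.rank_one_false (κ := Fin r)
  rw [Fintype.card_fin] at e1 e2
  obtain ⟨n, i1, i2, Q, P, H, hEnd, r2, r1, g⟩ := S8.sharp_all (κ := Fin r) false (by rw [Fintype.card_fin]; omega) (by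
    obtain ⟨s, hs⟩ : ∃ s, s = (S8.P5 (Fin r) 2 * S8.ee (Fin r) ℂ false).rank := ⟨_, rfl⟩
    obtain ⟨h, hh⟩ : ∃ h, h = (S8.P5 (Fin r) 1 * S8.ee (Fin r) ℂ false).rank := ⟨_, rfl⟩
    rw [← hs] at e1 ⊢
    rw [← hh] at e2 ⊢
    rw [e1, Fintype.card_fin]
    obtain ⟨m, rfl⟩ : ∃ m, r = m + 3 := ⟨r - 3, by omega⟩
    have h3 : h = m ^ 2 + 6 * m + 8 := by nlinarith
    rw [h3, show m + 3 - 1 = m + 2 by omega]
    ring_nf
    nlinarith [sq_nonneg m, sq_nonneg (m ^ 2)])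
  exact ⟨n, i1, i2, Q, P, H, hEnd, by rw [r2, e1], by rw [r1, e2], g⟩

end MH
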