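import Pool.Agent.Helper2.PGN.Defs

/-!
Sharpness, Siegel type (MP_b8862a_ag): the symmetric square and the primitive part of the exterior square of a structure of
weight one and any genus; definitions and commutation rules (after Helper94/SH/Defs5, Rules5).
-/

set_option linter.unusedSectionVars false

open Matrix
open scoped Kronecker

namespace S8

open MH MH.PGN

/-- the index set of the weight one structure -/
abbrev V (κ : Type) : Type := κ ⊕ κ

section
variable (κ : Type) [Fintype κ] [DecidableEq κ] (R : Type*) [CommRing R]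

/-- the symplectic form -/
def psi : Matrix (V κ) (V κ) R := Matrix.fromBlocks 0 1 (-1) 0

variable {κ R}

/-- upper nilpotent element of the symplectic Lie algebra -/
def nU (S : Matrix κ κ R) : Matrix (V κ) (V κ) R := Matrix.fromBlocks 0 S 0 0

/-- lower nilpotent element of the symplectic Lie algebra -/
def nL (S : Matrix κ κ R) : Matrix (V κ) (V κ) R := Matrix.fromBlocks 0 0 S 0

/-- the derived action on the tensor square -/
def D (Y : Matrix (V κ) (V κ) R) : Matrix (V κ × V κ) (V κ × V κ) R :=
  Y ⊗ₖ (1 : Matrix (V κ) (V κ) R) + (1 : Matrix (V κ) (V κ) R) ⊗ₖ Y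

end

section
variable (κ : Type) [Fintype κ] [DecidableEq κ] (K : Type*) [Field K]

/-- `1 / (2 r)` -/
noncomputable def cr : K := 1 / (2 * (Fintype.card κ : K))

/-- the projection to the class of the symplectic form -/
noncomputable def E : Matrix (V κ × V κ) (V κ × V κ) K := fun p q => cr κ K * (psi κ K p.1 p.2 * psi κ K q.1 q.2)

/-- the projection to the symmetric square (`true`), to the primitive part of the exterior square (`false`) -/
noncomputable def ee (b : Bool) : Matrix (V κ × V κ) (V κ × V κ) K :=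
  if b then (1 / 2 : K) • (1 + T (V κ) K) else (1 / 2 : K) • (1 - T (V κ) K) - E κ K

theorem ee_true : ee κ K true = (1 / 2 : K) • (1 + T (V κ) K) := rfl

theorem ee_false : ee κ K false = (1 / 2 : K) • (1 - T (V κ) K) - E κ K := rfl

end

section ring

variable {κ : Type} [Fintype κ] [DecidableEq κ] {R : Type*} [CommRing R]

theorem psi_tr : (psi κ R)ᵀ = -psi κ R := by
  rw [psi, Matrix.fromBlocks_transpose, Matrix.fromBlocks_neg]
  simp

theorem psi_sq : psi κ R * psi κ R = -1 := by
  rw [psi, Matrix.fromBlocks_multiply]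
  simp only [Matrix.mul_zero, Matrix.mul_one, Matrix.mul_neg, zero_add, add_zero, neg_zero]
  rw [← Matrix.fromBlocks_one, Matrix.fromBlocks_neg, neg_zero]

theorem psi_trace : (psi κ R).trace = 0 := by
  simp [psi, Matrix.trace, Fintype.sum_sum_type]

theorem psi_map {R' : Type*} [CommRing R'] (f : R →+* R') : (psi κ R).map f = psi κ R' := by
  rw [psi, psi, Matrix.fromBlocks_map]
  congr 1
  · exact Matrix.map_zero _ (map_zero f)
  · exact Matrix.map_one _ (map_zero f) (map_one f)
  · ext i j
    simp only [Matrix.map_apply, Matrix.neg_apply, Matrix.one_apply, map_neg]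
    split_ifs <;> simp
  · exact Matrix.map_zero _ (map_zero f)

theorem kron_sq (A B C D : Matrix (V κ) (V κ) R) : A ⊗ₖ B * C ⊗ₖ D = (A * C) ⊗ₖ (B * D) :=
  (Matrix.mul_kronecker_mul A C B D).symm

theorem D_add (X Y : Matrix (V κ) (V κ) R) : D (X + Y) = D X + D Y := by
  rw [D, D, D, Matrix.add_kronecker, Matrix.kronecker_add]
  abel

theorem D_smul (c : R) (X : Matrix (V κ) (V κ) R) : D (c • X) = c • D X := by
  rw [D, D, Matrix.smul_kronecker, Matrix.kronecker_smul, smul_add]

theorem D_neg (X : Matrix (V κ) (V κ) R) : D (-X) = -D X := by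
  rw [← neg_one_smul R X, D_smul, neg_one_smul]

theorem D_sub (X Y : Matrix (V κ) (V κ) R) : D (X - Y) = D X - D Y := by
  rw [sub_eq_add_neg, D_add, D_neg, sub_eq_add_neg]

theorem D_zero : D (0 : Matrix (V κ) (V κ) R) = 0 := by
  rw [← zero_smul R (0 : Matrix (V κ) (V κ) R), D_smul, zero_smul]

theorem D_brk (X Y : Matrix (V κ) (V κ) R) : D (X * Y - Y * X) = D X * D Y - D Y * D X := by
  rw [D_sub]
  simp only [D, add_mul, mul_add, kron_sq, Matrix.one_mul, Matrix.mul_one]
  abel

theorem D_map {R' : Type*} [CommRing R'] (f : R →+* R') (X : Matrix (V κ) (V κ) R) : (D X).map f = D (X.map f) := by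
  ext p q
  simp only [D, Matrix.map_apply, Matrix.add_apply, Matrix.kroneckerMap_apply, map_add, map_mul, Matrix.one_apply]
  split_ifs <;> simp

/-- conjugation of the derived action -/
theorem D_conj {g g' : Matrix (V κ) (V κ) R} (h : g * g' = 1) (Y : Matrix (V κ) (V κ) R) :
    g ⊗ₖ g * D Y * g' ⊗ₖ g' = D (g * Y * g') := by
  rw [D, D, mul_add, add_mul, kron_sq, kron_sq, kron_sq, kron_sq, Matrix.mul_one, h]

end ring

section field

variable {κ : Type} [Fintype κ] [DecidableEq κ] {K : Type*} [Field K]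

/-- matrices of rank one on the tensor square -/
noncomputable def E' (X Y : Matrix (V κ) (V κ) K) : Matrix (V κ × V κ) (V κ × V κ) K :=
  fun p q => cr κ K * (X p.1 p.2 * Y q.1 q.2)

theorem E_eq : E κ K = E' (psi κ K) (psi κ K) := rfl

theorem kron_E' (A B X Y : Matrix (V κ) (V κ) K) : A ⊗ₖ B * E' X Y = E' (A * X * Bᵀ) Y := by
  ext p q
  rw [Matrix.mul_apply, Fintype.sum_prod_type]
  simp only [E', Matrix.kroneckerMap_apply, Matrix.mul_apply, Matrix.transpose_apply, Finset.sum_mul, Finset.mul_sum]
  rw [Finset.sum_comm]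
  refine Finset.sum_congr rfl fun i _ => Finset.sum_congr rfl fun j _ => ?_
  ring

theorem E'_kron (A B X Y : Matrix (V κ) (V κ) K) : E' X Y * A ⊗ₖ B = E' X (Aᵀ * Y * B) := by
  ext p q
  rw [Matrix.mul_apply, Fintype.sum_prod_type]
  simp only [E', Matrix.kroneckerMap_apply, Matrix.mul_apply, Matrix.transpose_apply, Finset.sum_mul, Finset.mul_sum]
  rw [Finset.sum_comm]
  refine Finset.sum_congr rfl fun i _ => Finset.sum_congr rfl fun j _ => ?_
  ring

theorem E'_mul (X Y Z U : Matrix (V κ) (V κ) K) : E' X Y * E' Z U = (cr κ K * (Yᵀ * Z).trace) • E' X U := by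
  ext p q
  rw [Matrix.mul_apply, Fintype.sum_prod_type]
  simp only [E', Matrix.smul_apply, smul_eq_mul, Matrix.trace, Matrix.diag_apply, Matrix.mul_apply,
    Matrix.transpose_apply, Finset.sum_mul, Finset.mul_sum]
  rw [Finset.sum_comm]
  refine Finset.sum_congr rfl fun i _ => Finset.sum_congr rfl fun j _ => ?_
  ring

theorem E'_trace (X Y : Matrix (V κ) (V κ) K) : (E' X Y).trace = cr κ K * (Xᵀ * Y).trace := by
  simp only [E', Matrix.trace, Matrix.diag_apply, Matrix.mul_apply, Matrix.transpose_apply, Finset.mul_sum]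
  rw [Fintype.sum_prod_type, Finset.sum_comm]

theorem E'_add_left (X X' Y : Matrix (V κ) (V κ) K) : E' (X + X') Y = E' X Y + E' X' Y := by
  ext p q
  simp only [E', Matrix.add_apply]
  ring

theorem E'_add_right (X Y Y' : Matrix (V κ) (V κ) K) : E' X (Y + Y') = E' X Y + E' X Y' := by
  ext p q
  simp only [E', Matrix.add_apply]
  ring

theorem E'_zero_left (Y : Matrix (V κ) (V κ) K) : E' 0 Y = 0 := by
  ext p q
  simp [E']

theorem E'_zero_right (X : Matrix (V κ) (V κ) K) : E' X 0 = 0 := by
  ext p q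
  simp [E']

theorem T_E : T (V κ) K * E κ K = -E κ K := by
  ext p q
  rw [T_mul_apply, Matrix.neg_apply]
  simp only [E, Prod.fst_swap, Prod.snd_swap]
  have h := congrFun (congrFun (psi_tr (κ := κ) (R := K)) p.1) p.2
  rw [Matrix.transpose_apply, Matrix.neg_apply] at h
  rw [h]
  ring

theorem E_T : E κ K * T (V κ) K = -E κ K := by
  ext p q
  rw [mul_T_apply, Matrix.neg_apply]
  simp only [E, Prod.fst_swap, Prod.snd_swap]
  have h := congrFun (congrFun (psi_tr (κ := κ) (R := K)) q.1) q.2
  rw [Matrix.transpose_apply, Matrix.neg_apply] at h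
  rw [h]
  ring

theorem D_T (Y : Matrix (V κ) (V κ) K) : D Y * T (V κ) K = T (V κ) K * D Y := by
  rw [D, mul_add, add_mul, T_kron, T_kron, add_comm]

theorem D_E {Y : Matrix (V κ) (V κ) K} (h1 : Y * psi κ K + psi κ K * Yᵀ = 0) : D Y * E κ K = 0 := by
  rw [D, add_mul, E_eq, kron_E', kron_E', ← E'_add_left, Matrix.transpose_one, Matrix.mul_one, Matrix.one_mul, h1,
    E'_zero_left]

theorem E_D {Y : Matrix (V κ) (V κ) K} (h2 : Yᵀ * psi κ K + psi κ K * Y = 0) : E κ K * D Y = 0 := by
  rw [D, mul_add, E_eq, E'_kron, E'_kron, ← E'_add_right, Matrix.transpose_one, Matrix.mul_one, Matrix.one_mul, h2,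
    E'_zero_right]

/-- the projection commutes with isometries -/
theorem ee_kron (b : Bool) {g : Matrix (V κ) (V κ) K} (h1 : g * psi κ K * gᵀ = psi κ K)
    (h2 : gᵀ * psi κ K * g = psi κ K) : g ⊗ₖ g * ee κ K b = ee κ K b * g ⊗ₖ g := by
  have hE : g ⊗ₖ g * E κ K = E κ K * g ⊗ₖ g := by
    rw [E_eq, kron_E', E'_kron, h1, h2]
  have hT : g ⊗ₖ g * T (V κ) K = T (V κ) K * g ⊗ₖ g := (T_kron g g).symm
  cases b
  · rw [ee_false, mul_sub, sub_mul, Matrix.mul_smul, Matrix.smul_mul, mul_sub, sub_mul, Matrix.mul_one, Matrix.one_mul, hT, hE]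
  · rw [ee_true, Matrix.mul_smul, Matrix.smul_mul, mul_add, add_mul, Matrix.mul_one, Matrix.one_mul, hT]

/-- the projection commutes with the Lie algebra -/
theorem ee_D (b : Bool) {Y : Matrix (V κ) (V κ) K} (h1 : Y * psi κ K + psi κ K * Yᵀ = 0)
    (h2 : Yᵀ * psi κ K + psi κ K * Y = 0) : D Y * ee κ K b = ee κ K b * D Y := by
  cases b
  · rw [ee_false, mul_sub, sub_mul, Matrix.mul_smul, Matrix.smul_mul, mul_sub, sub_mul, Matrix.mul_one, Matrix.one_mul, D_T,
      D_E h1, E_D h2]
  · rw [ee_true, Matrix.mul_smul, Matrix.smul_mul, mul_add, add_mul, Matrix.mul_one, Matrix.one_mul, D_T]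

theorem ee_map {K' : Type*} [Field K'] [CharZero K'] (b : Bool) (f : K →+* K') : (ee κ K b).map f = ee κ K' b := by
  have hp : ∀ i j, f (psi κ K i j) = psi κ K' i j := fun i j => congrFun (congrFun (psi_map f) i) j
  cases b
  · ext p q
    simp only [ee_false, E, cr, Matrix.map_apply, Matrix.sub_apply, Matrix.smul_apply, smul_eq_mul, map_sub, map_mul, hp,
      map_div₀, map_one, map_ofNat, map_natCast, Matrix.one_apply, T]
    split_ifs <;> simp
  · ext p q
    simp only [ee_true, Matrix.map_apply, Matrix.add_apply, Matrix.smul_apply, smul_eq_mul, map_add, map_mul,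
      map_div₀, map_one, map_ofNat, Matrix.one_apply, T]
    split_ifs <;> simp

variable [CharZero K]

theorem cr_mul [Nonempty κ] : cr κ K * (2 * (Fintype.card κ : K)) = 1 := by
  have h1 : (Fintype.card κ : K) ≠ 0 := by exact_mod_cast Fintype.card_ne_zero
  unfold cr
  field_simp

theorem trace_oneV : (1 : Matrix (V κ) (V κ) K).trace = 2 * (Fintype.card κ : K) := by
  rw [Matrix.trace_one, Fintype.card_sum]
  push_cast
  ring

theorem E_E [Nonempty κ] : E κ K * E κ K = E κ K := by
  rw [E_eq, E'_mul, psi_tr, Matrix.neg_mul, psi_sq, neg_neg, trace_oneV, cr_mul, one_smul]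

theorem E_trace [Nonempty κ] : (E κ K).trace = 1 := by
  rw [E_eq, E'_trace, psi_tr, Matrix.neg_mul, psi_sq, neg_neg, trace_oneV, cr_mul]

theorem ee_idem [Nonempty κ] (b : Bool) : ee κ K b * ee κ K b = ee κ K b := by
  cases b
  · have h1 : (1 - T (V κ) K) * (1 - T (V κ) K) = (2 : K) • (1 - T (V κ) K) := by
      rw [sub_mul, mul_sub, mul_sub, T_mul_T, Matrix.one_mul, Matrix.mul_one, Matrix.one_mul, two_smul]
      abel
    have h2 : (1 - T (V κ) K) * E κ K = (2 : K) • E κ K := by
      rw [sub_mul, T_E, Matrix.one_mul, two_smul]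
      abel
    have h3 : E κ K * (1 - T (V κ) K) = (2 : K) • E κ K := by
      rw [mul_sub, E_T, Matrix.mul_one, two_smul]
      abel
    have h4 : (1 / 2 : K) * 2 = 1 := by norm_num
    rw [ee_false, sub_mul, mul_sub, mul_sub, Matrix.smul_mul, Matrix.smul_mul, Matrix.mul_smul, Matrix.mul_smul, h1, h2, h3,
      E_E]
    simp only [smul_smul, h4, one_smul]
    abel
  · have h1 : (1 + T (V κ) K) * (1 + T (V κ) K) = (2 : K) • (1 + T (V κ) K) := by
      rw [add_mul, mul_add, mul_add, T_mul_T, Matrix.one_mul, Matrix.mul_one, Matrix.one_mul, two_smul]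
      abel
    rw [ee_true, Matrix.smul_mul, Matrix.mul_smul, h1, smul_smul, smul_smul]
    norm_num

/-- the partial trace -/
def tr2 : Matrix (V κ × V κ) (V κ × V κ) K →ₗ[K] Matrix (V κ) (V κ) K where
  toFun M := fun i k => ∑ j, M (i, j) (k, j)
  map_add' M M' := by
    ext i k
    exact Finset.sum_add_distrib
  map_smul' c M := by
    ext i k
    exact (Finset.mul_sum _ _ _).symm

theorem tr2_apply (M : Matrix (V κ × V κ) (V κ × V κ) K) (i k : V κ) : tr2 M i k = ∑ j, M (i, j) (k, j) := rfl

/-- the partial trace commutes with the Lie algebra -/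
theorem tr2_brk (Y : Matrix (V κ) (V κ) K) (M : Matrix (V κ × V κ) (V κ × V κ) K) :
    tr2 (D Y * M - M * D Y) = Y * tr2 M - tr2 M * Y := by
  ext i k
  have e1 : ∀ i j q, (D Y * M) (i, j) q = ∑ a, Y i a * M (a, j) q + ∑ a, Y j a * M (i, a) q := by
    intro i j q
    rw [Matrix.mul_apply, Fintype.sum_prod_type]
    simp only [D, Matrix.add_apply, Matrix.kroneckerMap_apply, Matrix.one_apply, add_mul, Finset.sum_add_distrib]
    congr 1
    · refine Finset.sum_congr rfl fun a _ => ?_
      rw [Finset.sum_eq_single j]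
      · simp
      · intro b _ hb
        rw [if_neg (Ne.symm hb)]
        simp
      · intro h
        exact absurd (Finset.mem_univ _) h
    · rw [Finset.sum_eq_single i]
      · simp
      · intro b _ hb
        refine Finset.sum_eq_zero fun a _ => ?_
        rw [if_neg (Ne.symm hb)]
        simp
      · intro h
        exact absurd (Finset.mem_univ _) h
  have e2 : ∀ p k j, (M * D Y) p (k, j) = ∑ a, M p (a, j) * Y a k + ∑ a, M p (k, a) * Y a j := by
    intro p k j
    rw [Matrix.mul_apply, Fintype.sum_prod_type]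
    simp only [D, Matrix.add_apply, Matrix.kroneckerMap_apply, Matrix.one_apply, mul_add, Finset.sum_add_distrib]
    congr 1
    · refine Finset.sum_congr rfl fun a _ => ?_
      rw [Finset.sum_eq_single j]
      · simp
      · intro b _ hb
        rw [if_neg hb]
        simp
      · intro h
        exact absurd (Finset.mem_univ _) h
    · rw [Finset.sum_eq_single k]
      · simp
      · intro b _ hb
        refine Finset.sum_eq_zero fun a _ => ?_
        rw [if_neg hb]
        simp
      · intro h
        exact absurd (Finset.mem_univ _) h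
  rw [tr2_apply]
  simp only [Matrix.sub_apply, e1, e2, Finset.sum_sub_distrib, Finset.sum_add_distrib]
  have e3 : ∑ j, ∑ a, Y j a * M (i, a) (k, j) = ∑ j, ∑ a, M (i, j) (k, a) * Y a j := by
    rw [Finset.sum_comm]
    refine Finset.sum_congr rfl fun a _ => Finset.sum_congr rfl fun b _ => ?_
    ring
  have e4 : ∑ j, ∑ a, Y i a * M (a, j) (k, j) = (Y * tr2 M) i k := by
    rw [Finset.sum_comm, Matrix.mul_apply]
    refine Finset.sum_congr rfl fun a _ => ?_
    rw [tr2_apply, Finset.mul_sum]
  have e5 : ∑ j, ∑ a, M (i, j) (a, j) * Y a k = (tr2 M * Y) i k := by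
    rw [Finset.sum_comm, Matrix.mul_apply]
    refine Finset.sum_congr rfl fun a _ => ?_
    rw [tr2_apply, Finset.sum_mul]
  rw [e3, e4, e5]
  ring

/-- the sign of the projection -/
def sgn (K : Type*) [Field K] (b : Bool) : K := if b then 1 else -1

/-- the partial trace of the derived action on the summand -/
theorem tr2_ee_D (b : Bool) {Y : Matrix (V κ) (V κ) K} (h2 : Yᵀ * psi κ K + psi κ K * Y = 0) (ht : Y.trace = 0) :
    tr2 (ee κ K b * D Y) = ((Fintype.card κ : K) + sgn K b) • Y := by
  have h3 : ee κ K b * D Y = (1 / 2 : K) • (D Y + sgn K b • (T (V κ) K * D Y)) := by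
    cases b
    · rw [ee_false, sub_mul, E_D h2, sub_zero, Matrix.smul_mul, sub_mul, Matrix.one_mul, sub_eq_add_neg, sgn,
        if_neg (by decide), neg_one_smul]
    · rw [ee_true, Matrix.smul_mul, add_mul, Matrix.one_mul, sgn, if_pos rfl, one_smul]
  rw [h3, map_smul, map_add, map_smul]
  have h4 : tr2 (D Y) = (2 * (Fintype.card κ : K)) • Y := by
    ext i k
    rw [tr2_apply]
    have e1 : ∀ j, D Y (i, j) (k, j) = Y i k + (1 : Matrix (V κ) (V κ) K) i k * Y j j := by
      intro j
      rw [D, Matrix.add_apply, Matrix.kroneckerMap_apply, Matrix.kroneckerMap_apply, Matrix.one_apply_eq, mul_one]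
    have e2 : ∑ j, Y j j = 0 := ht
    simp only [e1]
    rw [Finset.sum_add_distrib, ← Finset.mul_sum, e2, mul_zero, add_zero, Finset.sum_const, Finset.card_univ,
      Matrix.smul_apply, smul_eq_mul, nsmul_eq_mul, Fintype.card_sum]
    push_cast
    ring
  have h5 : tr2 (T (V κ) K * D Y) = (2 : K) • Y := by
    ext i k
    rw [tr2_apply]
    simp only [T_mul_apply, Prod.swap_prod_mk, D, Matrix.add_apply, Matrix.kroneckerMap_apply, Finset.sum_add_distrib,
      Matrix.one_apply]
    rw [Finset.sum_eq_single i, Finset.sum_eq_single k]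
    · simp
      ring
    · intro b _ hb
      rw [if_neg hb, zero_mul]
    · intro h
      exact absurd (Finset.mem_univ _) h
    · intro b _ hb
      rw [if_neg (Ne.symm hb), mul_zero]
    · intro h
      exact absurd (Finset.mem_univ _) h
  rw [h4, h5, smul_smul, ← add_smul, smul_smul]
  congr 1
  ring

end field

end S8
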